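import Mathlib

/-!
Definitions: Koszul homology on the variables, Poincare series, Golod rings, permanental ideals of
generic Hankel matrices.
-/

set_option autoImplicit false

namespace Pool.Agent.H82.Golod

open CategoryTheory MvPolynomial
open scoped ModuleCat.Algebra

universe u

section Koszul

variable {A : Type u} [CommRing A] {r : ℕ}

/-- The differential of the Koszul complex on `x 0, ..., x (r-1)`. The total module of the complex is
the free module with basis `e S`, `S` a subset of `Fin r`; an element is the family `f` of its
coordinates. The differential sends `e T` to the sum over `i` in `T` of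
`(-1) ^ #{t ∈ T | t < i} * x i` times `e (T without i)`. -/
def koszulDiff (x : Fin r → A) : (Finset (Fin r) → A) →ₗ[A] (Finset (Fin r) → A) where
  toFun f S := ∑ i ∈ Sᶜ, (-1) ^ (S.filter (· < i)).card * x i * f (insert i S)
  map_add' f g := by
    funext S
    simp only [Pi.add_apply, mul_add, Finset.sum_add_distrib]
  map_smul' a f := by
    funext S
    simp only [Pi.smul_apply, smul_eq_mul, RingHom.id_apply, Finset.mul_sum]
    exact Finset.sum_congr rfl fun i _ => by ring

/-- The part of degree `j` of the Koszul complex: it is spanned by the `e S` with `S` of size `j`. -/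
def koszulDeg (A : Type u) [CommRing A] (r j : ℕ) : Submodule A (Finset (Fin r) → A) where
  carrier := {f | ∀ S, S.card ≠ j → f S = 0}
  add_mem' := by
    intro f g hf hg S hS
    rw [Pi.add_apply, hf S hS, hg S hS, add_zero]
  zero_mem' := fun _ _ => rfl
  smul_mem' := by
    intro a f hf S hS
    rw [Pi.smul_apply, hf S hS, smul_zero]

/-- The Koszul cycles of degree `j`. -/
def koszulCycles (x : Fin r → A) (j : ℕ) : Submodule A (Finset (Fin r) → A) :=
  LinearMap.ker (koszulDiff x) ⊓ koszulDeg A r j

/-- The Koszul boundaries of degree `j`. -/
def koszulBoundaries (x : Fin r → A) (j : ℕ) : Submodule A (Finset (Fin r) → A) :=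
  (koszulDeg A r (j + 1)).map (koszulDiff x)

/-- The `j`-th Koszul homology: cycles modulo boundaries. -/
abbrev KoszulHomology (x : Fin r → A) (j : ℕ) : Type u :=
  koszulCycles x j ⧸ (koszulBoundaries x j).submoduleOf (koszulCycles x j)

end Koszul

section Golod

variable (k : Type u) [Field k] {r : ℕ} (I : Ideal (MvPolynomial (Fin r) k))

/-- The images of the variables in the quotient ring. -/
noncomputable def vars : Fin r → MvPolynomial (Fin r) k ⧸ I := fun i => Ideal.Quotient.mk I (X i)

/-- The residue field of the quotient ring `R`, as an `R`-module: `R` modulo the ideal generated by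
the variables. -/
abbrev ResidueField : Type u := (MvPolynomial (Fin r) k ⧸ I) ⧸ Ideal.span (Set.range (vars k I))

/-- The dimension over `k` of the `i`-th Tor of the residue field with itself over `R`. -/
noncomputable def torDim (i : ℕ) : ℕ :=
  Module.finrank k
    (((Tor (ModuleCat.{u} (MvPolynomial (Fin r) k ⧸ I)) i).obj
      (ModuleCat.of (MvPolynomial (Fin r) k ⧸ I) (ResidueField k I))).obj
        (ModuleCat.of (MvPolynomial (Fin r) k ⧸ I) (ResidueField k I)))

/-- The quotient ring `R` of the polynomial ring in `r` variables by `I` is Golod: the Poincare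
series `P` of its residue field satisfies
`P * (1 - ∑_{j ≥ 1} dim H_j z ^ (j + 1)) = (1 + z) ^ r`, where `H_j` is the Koszul homology of `R` on
the variables. -/
def IsGolod : Prop :=
  (PowerSeries.mk fun i => (torDim k I i : ℤ)) *
    (1 - PowerSeries.mk fun i =>
      if 2 ≤ i then (Module.finrank k (KoszulHomology (vars k I) (i - 1)) : ℤ) else 0) =
    (1 + PowerSeries.X) ^ r

end Golod

section Hankel

/-- The ideal generated by the permanents of the `2 × 2` submatrices of a matrix. -/
def permIdeal {B : Type u} [CommRing B] {m n : ℕ} (M : Matrix (Fin m) (Fin n) B) : Ideal B :=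
  Ideal.span {p | ∃ (i i' : Fin m) (j j' : Fin n), i < i' ∧ j < j' ∧
    p = M i j * M i' j' + M i j' * M i' j}

/-- The generic Hankel matrix of size `m × n`: with rows and columns numbered from `0`, the entry
`(i, j)` is the variable number `i + j` out of `m + n - 1` variables. -/
noncomputable def hankel (k : Type u) [Field k] (m n : ℕ) :
    Matrix (Fin m) (Fin n) (MvPolynomial (Fin (m + n - 1)) k) :=
  fun i j => X ⟨(i : ℕ) + (j : ℕ), by omega⟩

end Hankel

end Pool.Agent.H82.Golod
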