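import Pool.Agent.H82.Golod.RingPart

/-!
The ring of the generic Hankel matrix of size 3 x 6.
-/

set_option autoImplicit false

namespace Pool.Agent.H82.Golod

universe u

open MvPolynomial

section table

variable {B : Type u} [CommRing B]

/-- the relations given by the permanents, 0-based, with the variables extended by zero -/
theorem products_of_perms (Y : ℕ → B) (h2 : ∀ x : B, 2 * x = 0 → x = 0)
    (h : ∀ i i' j j' : ℕ, i < i' → i' < 3 → j < j' → j' < 6 →
      Y (i + j) * Y (i' + j') + Y (i + j') * Y (i' + j) = 0) :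
    (∀ a b : ℕ, a < 8 → b < 8 → 4 ≤ a + b → a + b ≤ 10 → Y a * Y b = 0) ∧
    Y 1 * Y 1 = - (Y 0 * Y 2) ∧ Y 1 * Y 2 = - (Y 0 * Y 3) ∧
    Y 6 * Y 6 = - (Y 7 * Y 5) ∧ Y 6 * Y 5 = - (Y 7 * Y 4) := by
  have e41 : Y 0 * Y 4 + Y 3 * Y 1 = 0 := h 0 1 0 3 (by norm_num) (by norm_num) (by norm_num) (by norm_num)
  have e42 : Y 1 * Y 3 + Y 2 * Y 2 = 0 := h 0 1 1 2 (by norm_num) (by norm_num) (by norm_num) (by norm_num)
  have e43 : Y 0 * Y 4 + Y 2 * Y 2 = 0 := h 0 2 0 2 (by norm_num) (by norm_num) (by norm_num) (by norm_num)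
  have e51 : Y 0 * Y 5 + Y 4 * Y 1 = 0 := h 0 1 0 4 (by norm_num) (by norm_num) (by norm_num) (by norm_num)
  have e52 : Y 1 * Y 4 + Y 3 * Y 2 = 0 := h 0 1 1 3 (by norm_num) (by norm_num) (by norm_num) (by norm_num)
  have e53 : Y 0 * Y 5 + Y 3 * Y 2 = 0 := h 0 2 0 3 (by norm_num) (by norm_num) (by norm_num) (by norm_num)
  have e61 : Y 0 * Y 6 + Y 5 * Y 1 = 0 := h 0 1 0 5 (by norm_num) (by norm_num) (by norm_num) (by norm_num)
  have e62 : Y 1 * Y 5 + Y 4 * Y 2 = 0 := h 0 1 1 4 (by norm_num) (by norm_num) (by norm_num) (by norm_num)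
  have e63 : Y 2 * Y 4 + Y 3 * Y 3 = 0 := h 0 1 2 3 (by norm_num) (by norm_num) (by norm_num) (by norm_num)
  have e64 : Y 0 * Y 6 + Y 4 * Y 2 = 0 := h 0 2 0 4 (by norm_num) (by norm_num) (by norm_num) (by norm_num)
  have e71 : Y 0 * Y 7 + Y 5 * Y 2 = 0 := h 0 2 0 5 (by norm_num) (by norm_num) (by norm_num) (by norm_num)
  have e72 : Y 1 * Y 6 + Y 5 * Y 2 = 0 := h 0 1 1 5 (by norm_num) (by norm_num) (by norm_num) (by norm_num)
  have e73 : Y 2 * Y 5 + Y 4 * Y 3 = 0 := h 0 1 2 4 (by norm_num) (by norm_num) (by norm_num) (by norm_num)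
  have e74 : Y 1 * Y 6 + Y 4 * Y 3 = 0 := h 0 2 1 4 (by norm_num) (by norm_num) (by norm_num) (by norm_num)
  have e81 : Y 1 * Y 7 + Y 5 * Y 3 = 0 := h 0 2 1 5 (by norm_num) (by norm_num) (by norm_num) (by norm_num)
  have e82 : Y 2 * Y 6 + Y 5 * Y 3 = 0 := h 0 1 2 5 (by norm_num) (by norm_num) (by norm_num) (by norm_num)
  have e83 : Y 3 * Y 5 + Y 4 * Y 4 = 0 := h 0 1 3 4 (by norm_num) (by norm_num) (by norm_num) (by norm_num)
  have e84 : Y 2 * Y 6 + Y 4 * Y 4 = 0 := h 0 2 2 4 (by norm_num) (by norm_num) (by norm_num) (by norm_num)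
  have e91 : Y 2 * Y 7 + Y 5 * Y 4 = 0 := h 0 2 2 5 (by norm_num) (by norm_num) (by norm_num) (by norm_num)
  have e92 : Y 3 * Y 6 + Y 5 * Y 4 = 0 := h 0 1 3 5 (by norm_num) (by norm_num) (by norm_num) (by norm_num)
  have e93 : Y 2 * Y 7 + Y 6 * Y 3 = 0 := h 1 2 1 5 (by norm_num) (by norm_num) (by norm_num) (by norm_num)
  have eA1 : Y 3 * Y 7 + Y 6 * Y 4 = 0 := h 1 2 2 5 (by norm_num) (by norm_num) (by norm_num) (by norm_num)
  have eA2 : Y 3 * Y 7 + Y 5 * Y 5 = 0 := h 0 2 3 5 (by norm_num) (by norm_num) (by norm_num) (by norm_num)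
  have eA3 : Y 4 * Y 6 + Y 5 * Y 5 = 0 := h 0 1 4 5 (by norm_num) (by norm_num) (by norm_num) (by norm_num)
  have f1 : Y 0 * Y 2 + Y 1 * Y 1 = 0 := h 0 1 0 1 (by norm_num) (by norm_num) (by norm_num) (by norm_num)
  have f2 : Y 0 * Y 3 + Y 2 * Y 1 = 0 := h 0 1 0 2 (by norm_num) (by norm_num) (by norm_num) (by norm_num)
  have f3 : Y 5 * Y 7 + Y 6 * Y 6 = 0 := h 1 2 4 5 (by norm_num) (by norm_num) (by norm_num) (by norm_num)
  have f4 : Y 4 * Y 7 + Y 6 * Y 5 = 0 := h 1 2 3 5 (by norm_num) (by norm_num) (by norm_num) (by norm_num)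
  have p04 : Y 0 * Y 4 = 0 := h2 _ (by linear_combination e41 + e43 - e42)
  have p13 : Y 1 * Y 3 = 0 := h2 _ (by linear_combination e41 - e43 + e42)
  have p22 : Y 2 * Y 2 = 0 := h2 _ (by linear_combination e42 + e43 - e41)
  have p05 : Y 0 * Y 5 = 0 := h2 _ (by linear_combination e51 + e53 - e52)
  have p14 : Y 1 * Y 4 = 0 := h2 _ (by linear_combination e51 - e53 + e52)
  have p23 : Y 2 * Y 3 = 0 := h2 _ (by linear_combination e52 + e53 - e51)
  have p06 : Y 0 * Y 6 = 0 := h2 _ (by linear_combination e61 + e64 - e62)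
  have p15 : Y 1 * Y 5 = 0 := h2 _ (by linear_combination e61 - e64 + e62)
  have p24 : Y 2 * Y 4 = 0 := h2 _ (by linear_combination e62 + e64 - e61)
  have p33 : Y 3 * Y 3 = 0 := by linear_combination e63 - p24
  have p25 : Y 2 * Y 5 = 0 := h2 _ (by linear_combination e72 + e73 - e74)
  have p34 : Y 3 * Y 4 = 0 := by linear_combination e73 - p25
  have p16 : Y 1 * Y 6 = 0 := by linear_combination e74 - p34
  have p07 : Y 0 * Y 7 = 0 := by linear_combination e71 - p25
  have p35 : Y 3 * Y 5 = 0 := h2 _ (by linear_combination e82 + e83 - e84)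
  have p26 : Y 2 * Y 6 = 0 := by linear_combination e82 - p35
  have p44 : Y 4 * Y 4 = 0 := by linear_combination e83 - p35
  have p17 : Y 1 * Y 7 = 0 := by linear_combination e81 - p35
  have p45 : Y 4 * Y 5 = 0 := h2 _ (by linear_combination e91 + e92 - e93)
  have p27 : Y 2 * Y 7 = 0 := by linear_combination e91 - p45
  have p36 : Y 3 * Y 6 = 0 := by linear_combination e92 - p45
  have p37 : Y 3 * Y 7 = 0 := h2 _ (by linear_combination eA1 + eA2 - eA3)
  have p46 : Y 4 * Y 6 = 0 := by linear_combination eA1 - p37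
  have p55 : Y 5 * Y 5 = 0 := by linear_combination eA2 - p37
  refine ⟨?_, by linear_combination f1, by linear_combination f2, by linear_combination f3,
    by linear_combination f4⟩
  intro a b ha hb h4 h10
  wlog hab : a ≤ b generalizing a b with H
  · rw [mul_comm]
    exact H b a hb ha (by omega) (by omega) (by omega)
  interval_cases a
  · interval_cases b <;> first | omega | assumption
  · interval_cases b <;> first | omega | assumption
  · interval_cases b <;> first | omega | assumption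
  · interval_cases b <;> first | omega | assumption
  · interval_cases b <;> first | omega | assumption
  · interval_cases b <;> first | omega | assumption
  · omega
  · omega

end table

section model

variable (k : Type u) [Field k]

/-- coefficients of the model -/
noncomputable def uu : ℕ → Polynomial k
  | 0 => Polynomial.X
  | 1 => Polynomial.X
  | 2 => -Polynomial.X
  | 3 => Polynomial.X
  | _ => 0

theorem uu_ge (n : ℕ) (h : 4 ≤ n) : uu k n = 0 := by
  match n, h with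
  | n + 4, _ => rfl

theorem uu_lt (n : ℕ) (h : n < 4) : uu k n = Polynomial.X ∨ uu k n = -Polynomial.X := by
  interval_cases n
  · exact Or.inl rfl
  · exact Or.inl rfl
  · exact Or.inr rfl
  · exact Or.inl rfl

/-- the model of one half of the ring; `w` is a numbering of the variables -/
noncomputable def psi (w : Fin 8 → ℕ) :
    MvPolynomial (Fin 8) k →ₐ[k] Polynomial (Polynomial k) :=
  aeval fun a => Polynomial.C (uu k (w a)) * Polynomial.X ^ (w a)

theorem psi_X (w : Fin 8 → ℕ) (a : Fin 8) :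
    psi k w (X a) = Polynomial.C (uu k (w a)) * Polynomial.X ^ (w a) := by
  unfold psi
  rw [aeval_X]

/-- numbering from the left -/
def wl (a : Fin 8) : ℕ := a

/-- numbering from the right -/
def wr (a : Fin 8) : ℕ := 7 - a

theorem perm_psi (w : Fin 8 → ℕ) (a b c d : Fin 8) (n : ℕ) (h1 : w a + w b = n)
    (h2 : w c + w d = n) (h3 : n < 4 → uu k (w a) * uu k (w b) + uu k (w c) * uu k (w d) = 0) :
    psi k w (X a * X b + X c * X d) ∈
      Ideal.span {(Polynomial.X : Polynomial (Polynomial k)) ^ 4} := by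
  have h4 : psi k w (X a * X b + X c * X d) =
      Polynomial.C (uu k (w a) * uu k (w b) + uu k (w c) * uu k (w d)) * Polynomial.X ^ n := by
    rw [map_add, map_mul, map_mul, psi_X, psi_X, psi_X, psi_X, map_add, map_mul, map_mul]
    calc _ = Polynomial.C (uu k (w a)) * Polynomial.C (uu k (w b)) *
          (Polynomial.X ^ (w a) * Polynomial.X ^ (w b)) +
          Polynomial.C (uu k (w c)) * Polynomial.C (uu k (w d)) *
          (Polynomial.X ^ (w c) * Polynomial.X ^ (w d)) := by ring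
      _ = _ := by
        rw [← pow_add, ← pow_add, h1, h2]
        ring
  rw [h4]
  by_cases hn : n < 4
  · rw [h3 hn, map_zero, zero_mul]
    exact Ideal.zero_mem _
  · apply Ideal.mul_mem_left
    rw [Ideal.mem_span_singleton]
    exact pow_dvd_pow _ (by omega)

/-- the ideal of the generic Hankel matrix of size 3 x 6 -/
noncomputable def I36 : Ideal (MvPolynomial (Fin 8) k) := permIdeal (hankel k 3 6)

theorem I36_le_left : I36 k ≤
    Ideal.comap (psi k wl) (Ideal.span {(Polynomial.X : Polynomial (Polynomial k)) ^ 4}) := by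
  unfold I36 permIdeal
  rw [Ideal.span_le]
  rintro p ⟨i, i', j, j', hi, hj, rfl⟩
  rw [SetLike.mem_coe, Ideal.mem_comap]
  have hi' : (i : ℕ) < i' := hi
  have hj' : (j : ℕ) < j' := hj
  have b1 := i'.2
  have b2 := j'.2
  refine perm_psi k wl _ _ _ _ ((i : ℕ) + j + (i' + j')) rfl (by simp only [wl]; omega) ?_
  intro hn
  simp only [wl]
  have h5 : (i : ℕ) = 0 ∧ (j : ℕ) = 0 ∧ (((i' : ℕ) = 1 ∧ (j' : ℕ) = 1) ∨
    ((i' : ℕ) = 1 ∧ (j' : ℕ) = 2) ∨ ((i' : ℕ) = 2 ∧ (j' : ℕ) = 1)) := by omega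
  obtain ⟨e1, e2, e3 | e3 | e3⟩ := h5
  · rw [e1, e2, e3.1, e3.2]
    simp only [uu]
    ring
  · rw [e1, e2, e3.1, e3.2]
    simp only [uu]
    ring
  · rw [e1, e2, e3.1, e3.2]
    simp only [uu]
    ring

theorem I36_le_right : I36 k ≤
    Ideal.comap (psi k wr) (Ideal.span {(Polynomial.X : Polynomial (Polynomial k)) ^ 4}) := by
  unfold I36 permIdeal
  rw [Ideal.span_le]
  rintro p ⟨i, i', j, j', hi, hj, rfl⟩
  rw [SetLike.mem_coe, Ideal.mem_comap]
  have hi' : (i : ℕ) < i' := hi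
  have hj' : (j : ℕ) < j' := hj
  have b1 := i'.2
  have b2 := j'.2
  refine perm_psi k wr _ _ _ _ (14 - ((i : ℕ) + j + (i' + j'))) (by simp only [wr]; omega)
    (by simp only [wr]; omega) ?_
  intro hn
  simp only [wr]
  have h5 : (i' : ℕ) = 2 ∧ (j' : ℕ) = 5 ∧ (((i : ℕ) = 1 ∧ (j : ℕ) = 4) ∨
    ((i : ℕ) = 1 ∧ (j : ℕ) = 3) ∨ ((i : ℕ) = 0 ∧ (j : ℕ) = 4)) := by omega
  obtain ⟨e1, e2, e3 | e3 | e3⟩ := h5
  · rw [e1, e2, e3.1, e3.2]
    simp only [uu]
    ring
  · rw [e1, e2, e3.1, e3.2]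
    simp only [uu]
    ring
  · rw [e1, e2, e3.1, e3.2]
    simp only [uu]
    ring

theorem coeff_of_mem {q : MvPolynomial (Fin 8) k} (hq : q ∈ I36 k) (i : ℕ) (hi : i < 4) :
    (psi k wl q).coeff i = 0 ∧ (psi k wr q).coeff i = 0 := by
  have h1 := I36_le_left k hq
  have h2 := I36_le_right k hq
  rw [Ideal.mem_comap, Ideal.mem_span_singleton, Polynomial.X_pow_dvd_iff] at h1 h2
  exact ⟨h1 i hi, h2 i hi⟩

/-- the normal form -/
noncomputable def nf (c : k) (p : Fin 8 → Polynomial k) : MvPolynomial (Fin 8) k :=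
  C c + ∑ a, Polynomial.aeval (X 0 + X 7 : MvPolynomial (Fin 8) k) (p a) * X a

theorem psi_l (w : Fin 8 → ℕ) (hw : (w 0 = 0 ∧ w 7 = 7) ∨ (w 0 = 7 ∧ w 7 = 0)) :
    psi k w (X 0 + X 7) = Polynomial.C Polynomial.X := by
  rw [map_add, psi_X, psi_X]
  rcases hw with ⟨h0, h7⟩ | ⟨h0, h7⟩
  · rw [h0, h7, uu_ge k 7 (by norm_num)]
    simp [uu]
  · rw [h0, h7, uu_ge k 7 (by norm_num)]
    simp [uu]

theorem aeval_CX (p : Polynomial k) :
    Polynomial.aeval (Polynomial.C (Polynomial.X : Polynomial k)) p = Polynomial.C p := by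
  induction p using Polynomial.induction_on' with
  | add p q hp hq => rw [map_add, hp, hq, map_add]
  | monomial n a =>
    rw [Polynomial.aeval_monomial, ← map_pow, ← Polynomial.C_mul_X_pow_eq_monomial, map_mul]
    rfl

theorem psi_nf (w : Fin 8 → ℕ) (hw : (w 0 = 0 ∧ w 7 = 7) ∨ (w 0 = 7 ∧ w 7 = 0)) (c : k)
    (p : Fin 8 → Polynomial k) :
    psi k w (nf k c p) = Polynomial.C (Polynomial.C c) +
      ∑ a, Polynomial.C (p a * uu k (w a)) * Polynomial.X ^ (w a) := by
  unfold nf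
  rw [map_add, map_sum]
  congr 1
  · rw [← MvPolynomial.algebraMap_eq, AlgHom.commutes]
    rfl
  · refine Finset.sum_congr rfl fun a _ => ?_
    rw [map_mul, psi_X, ← Polynomial.aeval_algHom_apply, psi_l k w hw, aeval_CX, map_mul]
    ring

theorem coeff_nf (w : Fin 8 → ℕ) (hw : (w 0 = 0 ∧ w 7 = 7) ∨ (w 0 = 7 ∧ w 7 = 0))
    (hinj : Function.Injective w) (c : k) (p : Fin 8 → Polynomial k) (a : Fin 8) :
    (psi k w (nf k c p)).coeff (w a) = (if w a = 0 then Polynomial.C c else 0) +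
      p a * uu k (w a) := by
  rw [psi_nf k w hw, Polynomial.coeff_add, Polynomial.coeff_C, Polynomial.finsetSum_coeff]
  congr 1
  rw [Finset.sum_eq_single a]
  · rw [Polynomial.coeff_C_mul_X_pow, if_pos rfl]
  · intro b _ hba
    rw [Polynomial.coeff_C_mul_X_pow, if_neg]
    intro h
    exact hba (hinj h).symm
  · intro h
    exact absurd (Finset.mem_univ a) h

end model

section main

variable (k : Type u) [Field k]

/-- the variables in the quotient ring -/
noncomputable def yy : Fin 8 → MvPolynomial (Fin 8) k ⧸ I36 k := vars k (I36 k)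

/-- the sum of the first and the last variable -/
noncomputable def ll : MvPolynomial (Fin 8) k ⧸ I36 k := yy k 0 + yy k 7

theorem C_add_X_mul {c : k} {p : Polynomial k} (h : Polynomial.C c + p * Polynomial.X = 0) :
    c = 0 ∧ p = 0 := by
  have h1 : c = 0 := by
    have h2 := congrArg (fun q => Polynomial.coeff q 0) h
    simpa using h2
  refine ⟨h1, ?_⟩
  rw [h1, map_zero, zero_add] at h
  exact (mul_eq_zero.1 h).resolve_right Polynomial.X_ne_zero

theorem wl_or (a : Fin 8) : wl a < 4 ∨ wr a < 4 := by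
  unfold wl wr
  omega

theorem wl_inj : Function.Injective wl := by
  intro a b h
  unfold wl at h
  omega

theorem wr_inj : Function.Injective wr := by
  intro a b h
  unfold wr at h
  omega

theorem mul_uu_eq_zero {p : Polynomial k} {n : ℕ} (hn : n < 4) (h : p * uu k n = 0) : p = 0 := by
  rcases uu_lt k n hn with h1 | h1
  · rw [h1] at h
    exact (mul_eq_zero.1 h).resolve_right Polynomial.X_ne_zero
  · rw [h1, mul_neg, neg_eq_zero] at h
    exact (mul_eq_zero.1 h).resolve_right Polynomial.X_ne_zero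

/-- uniqueness of the normal form, in the form needed -/
theorem nf_zero {q : MvPolynomial (Fin 8) k} {c : k} {p : Fin 8 → Polynomial k}
    (h : q * nf k c p ∈ I36 k) (hq : ∀ w, w = wl ∨ w = wr → ∃ v : Polynomial k, v ≠ 0 ∧
      psi k w q = Polynomial.C v) : c = 0 ∧ ∀ a, p a = 0 := by
  have key : ∀ w, (w = wl ∨ w = wr) → ∀ a, w a < 4 →
      (if w a = 0 then Polynomial.C c else 0) + p a * uu k (w a) = 0 := by
    intro w hw a ha
    obtain ⟨v, hv, hv2⟩ := hq w hw
    have h1 : (psi k w (q * nf k c p)).coeff (w a) = 0 := by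
      rcases hw with rfl | rfl
      · exact (coeff_of_mem k h _ ha).1
      · exact (coeff_of_mem k h _ ha).2
    rw [map_mul, hv2, Polynomial.coeff_C_mul] at h1
    have h2 := (mul_eq_zero.1 h1).resolve_left hv
    rw [coeff_nf k w (by rcases hw with rfl | rfl <;> simp [wl, wr])
      (by rcases hw with rfl | rfl; exacts [wl_inj, wr_inj])] at h2
    exact h2
  have h0 : c = 0 ∧ p 0 = 0 := by
    have h1 := key wl (Or.inl rfl) 0 (by norm_num [wl])
    have h2 : wl 0 = 0 := rfl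
    rw [if_pos h2, h2] at h1
    exact C_add_X_mul k h1
  refine ⟨h0.1, ?_⟩
  intro a
  rcases wl_or a with ha | ha
  · have h1 := key wl (Or.inl rfl) a ha
    rw [h0.1, map_zero, ite_self, zero_add] at h1
    exact mul_uu_eq_zero k ha h1
  · have h1 := key wr (Or.inr rfl) a ha
    rw [h0.1, map_zero, ite_self, zero_add] at h1
    exact mul_uu_eq_zero k ha h1

variable {k}

theorem two_cancel {A : Type u} [CommRing A] [Algebra k A] (h2 : (2 : k) ≠ 0) (x : A)
    (hx : 2 * x = 0) : x = 0 := by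
  have h1 : algebraMap k A (2⁻¹) * 2 = 1 := by
    rw [show (2 : A) = algebraMap k A 2 from (map_ofNat _ 2).symm, ← map_mul,
      inv_mul_cancel₀ h2, map_one]
  calc x = (algebraMap k A (2⁻¹) * 2) * x := by rw [h1, one_mul]
    _ = algebraMap k A (2⁻¹) * (2 * x) := by ring
    _ = 0 := by rw [hx, mul_zero]

/-- the multiplication table -/
theorem mul_table {A : Type u} [CommRing A] [Algebra k A] (h2 : (2 : k) ≠ 0) (Y : ℕ → A)
    (hrel : ∀ i i' j j' : ℕ, i < i' → i' < 3 → j < j' → j' < 6 →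
      Y (i + j) * Y (i' + j') + Y (i + j') * Y (i' + j) = 0) (m n : ℕ) (hm : m < 8) (hn : n < 8) :
    ∃ (t : k) (c : ℕ), c < 8 ∧ Y m * Y n = (Y 0 + Y 7) * (algebraMap k A t * Y c) := by
  obtain ⟨hz, e11, e12, e66, e65⟩ := products_of_perms Y (two_cancel (k := k) h2) hrel
  have hl1 : ∀ n, n ≤ 3 → (Y 0 + Y 7) * Y n = Y 0 * Y n := by
    intro n hn
    rw [add_mul, hz 7 n (by omega) (by omega) (by omega) (by omega), add_zero]
  have hl2 : ∀ n, 4 ≤ n → n ≤ 7 → (Y 0 + Y 7) * Y n = Y 7 * Y n := by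
    intro n hn hn7
    rw [add_mul, hz 0 n (by omega) (by omega) (by omega) (by omega), zero_add]
  wlog hmn : m ≤ n generalizing m n with H
  · rw [mul_comm (Y m)]
    exact H n m hn hm (by omega)
  by_cases hmid : 4 ≤ m + n ∧ m + n ≤ 10
  · refine ⟨0, 0, by omega, ?_⟩
    rw [hz m n hm hn hmid.1 hmid.2, map_zero, zero_mul, mul_zero]
  rcases Nat.eq_zero_or_pos m with hm0 | hm0
  · refine ⟨1, n, hn, ?_⟩
    rw [map_one, one_mul, hl1 n (by omega), hm0]
  by_cases hn7 : n = 7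
  · refine ⟨1, m, hm, ?_⟩
    rw [map_one, one_mul, hl2 m (by omega) (by omega), hn7, mul_comm]
  have h7 : (m = 1 ∧ n = 1) ∨ (m = 1 ∧ n = 2) ∨ (m = 6 ∧ n = 6) ∨ (m = 5 ∧ n = 6) := by omega
  rcases h7 with ⟨rfl, rfl⟩ | ⟨rfl, rfl⟩ | ⟨rfl, rfl⟩ | ⟨rfl, rfl⟩
  · refine ⟨-1, 2, by omega, ?_⟩
    rw [map_neg, map_one, neg_one_mul, mul_neg, hl1 2 (by omega), e11]
  · refine ⟨-1, 3, by omega, ?_⟩
    rw [map_neg, map_one, neg_one_mul, mul_neg, hl1 3 (by omega), e12]
  · refine ⟨-1, 5, by omega, ?_⟩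
    rw [map_neg, map_one, neg_one_mul, mul_neg, hl2 5 (by omega) (by omega), e66]
  · refine ⟨-1, 4, by omega, ?_⟩
    rw [map_neg, map_one, neg_one_mul, mul_neg, hl2 4 (by omega) (by omega), mul_comm (Y 5), e65]

theorem mul_table_fin {A : Type u} [CommRing A] [Algebra k A] (h2 : (2 : k) ≠ 0) (y : Fin 8 → A)
    (hrel : ∀ (i i' : Fin 3) (j j' : Fin 6), i < i' → j < j' → ∀ (a b c d : Fin 8),
      (a : ℕ) = i + j → (b : ℕ) = i' + j' → (c : ℕ) = i + j' → (d : ℕ) = i' + j →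
      y a * y b + y c * y d = 0) (a b : Fin 8) :
    ∃ (t : k) (c : Fin 8), y a * y b = (y 0 + y 7) * (algebraMap k A t * y c) := by
  let Y : ℕ → A := fun n => if h : n < 8 then y ⟨n, h⟩ else 0
  have hY : ∀ n (h : n < 8), Y n = y ⟨n, h⟩ := fun n h => dif_pos h
  obtain ⟨t, c, hc, h3⟩ := mul_table (k := k) h2 Y (by
    intro i i' j j' h3 h4 h5 h6
    rw [hY (i + j) (by omega), hY (i' + j') (by omega), hY (i + j') (by omega),
      hY (i' + j) (by omega)]
    exact hrel ⟨i, by omega⟩ ⟨i', h4⟩ ⟨j, by omega⟩ ⟨j', h6⟩ h3 h5 _ _ _ _ rfl rfl rfl rfl)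
    a b a.2 b.2
  refine ⟨t, ⟨c, hc⟩, ?_⟩
  rw [hY a a.2, hY b b.2, hY 0 (by omega), hY 7 (by omega), hY c hc] at h3
  exact h3

theorem yy_mul (h2 : (2 : k) ≠ 0) (a b : Fin 8) :
    ∃ (t : k) (c : Fin 8), yy k a * yy k b =
      (yy k 0 + yy k 7) * (algebraMap k (MvPolynomial (Fin 8) k ⧸ I36 k) t * yy k c) := by
  apply mul_table_fin h2 (yy k)
  intro i i' j j' hi hj a b c d ha hb hc hd
  obtain ⟨a, ha'⟩ := a
  obtain ⟨b, hb'⟩ := b
  obtain ⟨c, hc'⟩ := c
  obtain ⟨d, hd'⟩ := d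
  simp only at ha hb hc hd
  subst ha hb hc hd
  have h3 : (X ⟨(i : ℕ) + j, ha'⟩ * X ⟨(i' : ℕ) + j', hb'⟩ +
      X ⟨(i : ℕ) + j', hc'⟩ * X ⟨(i' : ℕ) + j, hd'⟩ : MvPolynomial (Fin 8) k) ∈ I36 k := by
    apply Ideal.subset_span
    exact ⟨i, i', j, j', hi, hj, rfl⟩
  have h4 := (Ideal.Quotient.eq_zero_iff_mem).2 h3
  rw [map_add, map_mul, map_mul] at h4
  exact h4

end main

end Pool.Agent.H82.Golod
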