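import Pool.Agent.H82.Golod.Resolution

/-!
The minimal free resolution of the residue field of a ring of minimal multiplicity (dimension one).
-/

set_option autoImplicit false

namespace Pool.Agent.H82.Golod

open scoped ModuleCat.Algebra

universe u

/-- The structure used: `l` is a regular element, `y` is a minimal generating family of `m`, and
`m ^ 2 = l m`. -/
structure MinMult (k : Type u) {A : Type u} [Field k] [CommRing A] [Algebra k A] {e : ℕ}
    (y : Fin (e + 1) → A) (l : A) : Prop where
  reg : ∀ r, l * r = 0 → r = 0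
  mul : ∀ a b, ∃ m ∈ Ideal.span (Set.range y), y a * y b = l * m
  indep : ∀ c : Fin (e + 1) → k, (∃ m ∈ Ideal.span (Set.range y),
    ∑ a, algebraMap k A (c a) * y a = l * m) → ∀ a, c a = 0
  cover : ∀ r : A, ∃ c : k, r - algebraMap k A c ∈ Ideal.span (Set.range y)
  proper : (1 : A) ∉ Ideal.span (Set.range y)

variable {k A : Type u} [Field k] [CommRing A] [Algebra k A] {e : ℕ}

/-- words -/
def Wd (e : ℕ) : ℕ → Type
  | 0 => Unit
  | n + 1 => Wd e n × Fin e

/-- basis of the resolution -/
def Jt (e : ℕ) : ℕ → Type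
  | 0 => Unit
  | n + 1 => Wd e n × Fin (e + 1)

instance instFintypeWd (e : ℕ) : ∀ n, Fintype (Wd e n)
  | 0 => inferInstanceAs (Fintype Unit)
  | n + 1 => by
    have := instFintypeWd e n
    exact inferInstanceAs (Fintype (Wd e n × Fin e))

instance instFintypeJt (e : ℕ) : ∀ n, Fintype (Jt e n)
  | 0 => inferInstanceAs (Fintype Unit)
  | n + 1 => inferInstanceAs (Fintype (Wd e n × Fin (e + 1)))

theorem card_Wd (e n : ℕ) : Fintype.card (Wd e n) = e ^ n := by
  induction n with
  | zero => rfl
  | succ n ih =>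
    have h : Fintype.card (Wd e (n + 1)) = Fintype.card (Wd e n × Fin e) := rfl
    rw [h, Fintype.card_prod, ih, Fintype.card_fin, pow_succ]

theorem card_Jt_succ (e n : ℕ) : Fintype.card (Jt e (n + 1)) = e ^ n * (e + 1) := by
  have h : Fintype.card (Jt e (n + 1)) = Fintype.card (Wd e n × Fin (e + 1)) := rfl
  rw [h, Fintype.card_prod, card_Wd, Fintype.card_fin]

/-- first differential -/
def dZero (g : Fin (e + 1) → A) : (Jt e 1 → A) →ₗ[A] (Jt e 0 → A) :=
  LinearMap.pi fun _ => ∑ a, g a • LinearMap.proj (R := A) (φ := fun _ : Jt e 1 => A)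
    (((), a) : Unit × Fin (e + 1))

/-- higher differentials -/
def dSucc (g : Fin (e + 1) → A) (c : Fin (e + 1) → Fin e → A) (n : ℕ) :
    (Jt e (n + 2) → A) →ₗ[A] (Jt e (n + 1) → A) :=
  LinearMap.pi fun q : Wd e n × Fin (e + 1) =>
    Fin.cases (motive := fun _ => (Jt e (n + 2) → A) →ₗ[A] A)
      (-∑ i, ∑ a, c a i • LinearMap.proj (R := A) (φ := fun _ : Jt e (n + 2) => A)
        (((q.1, i), a) : (Wd e n × Fin e) × Fin (e + 1)))
      (fun i => ∑ a, g a • LinearMap.proj (R := A) (φ := fun _ : Jt e (n + 2) => A)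
        (((q.1, i), a) : (Wd e n × Fin e) × Fin (e + 1))) q.2

theorem dZero_apply (g : Fin (e + 1) → A) (f : Unit × Fin (e + 1) → A) (u : Unit) :
    dZero g f u = ∑ a, g a * f ((), a) := by
  simp [dZero]

theorem dSucc_zero (g : Fin (e + 1) → A) (c : Fin (e + 1) → Fin e → A) (n : ℕ)
    (f : (Wd e n × Fin e) × Fin (e + 1) → A) (w : Wd e n) :
    dSucc g c n f ((w, 0) : Wd e n × Fin (e + 1)) = -∑ i, ∑ a, c a i * f ((w, i), a) := by
  simp [dSucc]

theorem dSucc_succ (g : Fin (e + 1) → A) (c : Fin (e + 1) → Fin e → A) (n : ℕ)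
    (f : (Wd e n × Fin e) × Fin (e + 1) → A) (w : Wd e n) (i : Fin e) :
    dSucc g c n f ((w, i.succ) : Wd e n × Fin (e + 1)) = ∑ a, g a * f ((w, i), a) := by
  simp [dSucc]

/-- all differentials -/
def dAll (g : Fin (e + 1) → A) (c : Fin (e + 1) → Fin e → A) :
    ∀ n, (Jt e (n + 1) → A) →ₗ[A] (Jt e n → A)
  | 0 => dZero g
  | n + 1 => dSucc g c n

section

variable {y : Fin (e + 1) → A} {l : A}

theorem MinMult.mul_mem (h : MinMult k y l) {m : A} (hm : m ∈ Ideal.span (Set.range y))
    (a : Fin (e + 1)) : ∃ m' ∈ Ideal.span (Set.range y), y a * m = l * m' := by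
  obtain ⟨r, rfl⟩ := (Ideal.mem_span_range_iff_exists_fun).1 hm
  choose m' hm' hm'2 using fun b => h.mul a b
  refine ⟨∑ b, r b * m' b, Ideal.sum_mem _ fun b _ => Ideal.mul_mem_left _ _ (hm' b), ?_⟩
  rw [Finset.mul_sum, Finset.mul_sum]
  refine Finset.sum_congr rfl fun b _ => ?_
  calc y a * (r b * y b) = r b * (y a * y b) := by ring
    _ = l * (r b * m' b) := by rw [hm'2]; ring

theorem MinMult.sum_mul_mem (h : MinMult k y l) (f : Fin (e + 1) → A)
    (hf : ∀ a, f a ∈ Ideal.span (Set.range y)) :
    ∃ m' ∈ Ideal.span (Set.range y), ∑ a, y a * f a = l * m' := by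
  choose m' hm' hm'2 using fun a => h.mul_mem (hf a) a
  refine ⟨∑ a, m' a, Ideal.sum_mem _ fun b _ => hm' b, ?_⟩
  rw [Finset.mul_sum]
  exact Finset.sum_congr rfl fun b _ => hm'2 b

/-- syzygies have entries in the maximal ideal -/
theorem MinMult.mem_of_sum (h : MinMult k y l) (f : Fin (e + 1) → A)
    (hf : ∃ m ∈ Ideal.span (Set.range y), ∑ a, y a * f a = l * m) (a : Fin (e + 1)) :
    f a ∈ Ideal.span (Set.range y) := by
  choose c hc using h.cover
  obtain ⟨m, hm, hsum⟩ := hf
  obtain ⟨m', hm', hsum'⟩ := h.sum_mul_mem (fun a => f a - algebraMap k A (c (f a)))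
    (fun a => hc (f a))
  have h1 := h.indep (fun a => c (f a)) ⟨m - m', Ideal.sub_mem _ hm hm', by
    rw [mul_sub, ← hsum, ← hsum', ← Finset.sum_sub_distrib]
    exact Finset.sum_congr rfl fun b _ => by ring⟩ a
  have h2 := hc (f a)
  rwa [h1, map_zero, sub_zero] at h2

end

variable {g : Fin (e + 1) → A} {c : Fin (e + 1) → Fin e → A}

theorem mem_range_dSucc (h : MinMult k g (g 0))
    (hc : ∀ a i, g a * g i.succ = g 0 * c a i) (n : ℕ) (F : Wd e n × Fin (e + 1) → A) :
    (∀ w, ∑ a, g a * F (w, a) = 0) ↔ F ∈ Set.range (dSucc g c n) := by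
  constructor
  · intro hF
    have h1 : ∀ w a, F (w, a) ∈ Ideal.span (Set.range g) := fun w a =>
      h.mem_of_sum (fun a => F (w, a)) ⟨0, Ideal.zero_mem _, by rw [hF w, mul_zero]⟩ a
    have h2 : ∀ w (i : Fin e), ∃ r : Fin (e + 1) → A, ∑ a, r a * g a = F (w, i.succ) :=
      fun w i => (Ideal.mem_span_range_iff_exists_fun).1 (h1 w i.succ)
    choose r hr using h2
    refine ⟨(fun q : (Wd e n × Fin e) × Fin (e + 1) => r q.1.1 q.1.2 q.2), ?_⟩
    have hs : ∀ w (i : Fin e), ∑ a, g a * r w i a = F (w, i.succ) := by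
      intro w i
      rw [← hr w i]
      exact Finset.sum_congr rfl fun a _ => mul_comm _ _
    funext q
    obtain ⟨w, a⟩ := q
    induction a using Fin.cases with
    | zero =>
      rw [dSucc_zero]
      have h3 := hF w
      rw [Fin.sum_univ_succ] at h3
      have h4 : g 0 * (F (w, 0) + ∑ i, ∑ a, c a i * r w i a) = 0 := by
        rw [mul_add, Finset.mul_sum]
        rw [← h3]
        congr 1
        refine Finset.sum_congr rfl fun i _ => ?_
        rw [Finset.mul_sum, ← hs w i, Finset.mul_sum]
        refine Finset.sum_congr rfl fun a _ => ?_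
        calc g 0 * (c a i * r w i a) = (g 0 * c a i) * r w i a := by ring
          _ = g i.succ * (g a * r w i a) := by rw [← hc]; ring
      have h5 := h.reg _ h4
      exact (eq_neg_of_add_eq_zero_left h5).symm
    | succ i =>
      rw [dSucc_succ]
      exact hs w i
  · rintro ⟨G, rfl⟩ w
    rw [Fin.sum_univ_succ]
    rw [dSucc_zero g c n G w]
    have h1 : ∀ i : Fin e, dSucc g c n G (w, i.succ) = ∑ a, g a * G ((w, i), a) :=
      fun i => dSucc_succ g c n G w i
    simp_rw [h1]
    rw [mul_neg, Finset.mul_sum, neg_add_eq_zero]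
    refine Finset.sum_congr rfl fun i _ => ?_
    rw [Finset.mul_sum, Finset.mul_sum]
    have key : ∀ (a : Fin (e + 1)) (X : A), g 0 * (c a i * X) = g i.succ * (g a * X) := by
      intro a X
      rw [← mul_assoc, ← hc]
      ring
    exact Finset.sum_congr rfl fun a _ => key a _

theorem exact_dAll (h : MinMult k g (g 0))
    (hc : ∀ a i, g a * g i.succ = g 0 * c a i) (n : ℕ) :
    Function.Exact (dAll g c (n + 1)) (dAll g c n) := by
  intro F
  cases n with
  | zero =>
    refine Iff.trans ?_ (mem_range_dSucc h hc 0 F)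
    constructor
    · intro h1 w
      have h2 := congrFun h1 ()
      rw [show dAll g c 0 = dZero g from rfl] at h2
      rw [dZero_apply g F ()] at h2
      exact h2
    · intro h1
      funext u
      rw [show dAll g c 0 = dZero g from rfl]
      rw [dZero_apply g F u]
      exact h1 ()
  | succ n =>
    refine Iff.trans ?_ (mem_range_dSucc h hc (n + 1) F)
    rw [show dAll g c (n + 1) = dSucc g c n from rfl]
    constructor
    · rintro h1 ⟨w, i⟩
      have h2 := congrFun h1 ((w, i.succ) : Wd e n × Fin (e + 1))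
      rw [dSucc_succ g c n F w i] at h2
      exact h2
    · intro h1
      funext q
      obtain ⟨w, a⟩ := q
      induction a using Fin.cases with
      | zero =>
        rw [dSucc_zero g c n F w]
        apply h.reg
        rw [mul_neg, Finset.mul_sum, neg_eq_zero]
        apply Finset.sum_eq_zero
        intro i _
        have h2 := h1 (w, i)
        calc g 0 * ∑ a, c a i * F ((w, i), a) = g i.succ * ∑ a, g a * F ((w, i), a) := by
              rw [Finset.mul_sum, Finset.mul_sum]
              refine Finset.sum_congr rfl fun a _ => ?_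
              rw [← mul_assoc, ← hc]
              ring
          _ = 0 := by rw [h2, mul_zero]
      | succ i =>
        rw [dSucc_succ g c n F w i]
        exact h1 (w, i)

theorem min_dAll (hc : ∀ a i, c a i ∈ Ideal.span (Set.range g)) (n : ℕ)
    (F : Jt e (n + 1) → A) (x : Jt e n) : dAll g c n F x ∈ Ideal.span (Set.range g) := by
  cases n with
  | zero =>
    rw [show dAll g c 0 = dZero g from rfl]
    rw [dZero_apply g F x]
    exact Ideal.sum_mem _ fun a _ =>
      Ideal.mul_mem_right _ _ (Ideal.subset_span (Set.mem_range_self a))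
  | succ n =>
    rw [show dAll g c (n + 1) = dSucc g c n from rfl]
    obtain ⟨w, a⟩ := x
    induction a using Fin.cases with
    | zero =>
      rw [dSucc_zero g c n F w]
      exact Submodule.neg_mem _ (Ideal.sum_mem _ fun i _ => Ideal.sum_mem _ fun a _ =>
        Ideal.mul_mem_right _ _ (hc a i))
    | succ i =>
      rw [dSucc_succ g c n F w i]
      exact Ideal.sum_mem _ fun a _ =>
        Ideal.mul_mem_right _ _ (Ideal.subset_span (Set.mem_range_self a))

/-- The Betti numbers of the residue field. -/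
theorem finrank_tor_minMult (h : MinMult k g (g 0)) (m : Ideal A)
    (hm : m = Ideal.span (Set.range g)) (n : ℕ) :
    Module.finrank k (((CategoryTheory.Tor (ModuleCat.{u} A) n).obj (ModuleCat.of A (A ⧸ m))).obj
      (ModuleCat.of A (A ⧸ m))) = Fintype.card (Jt e n) := by
  subst hm
  choose c hc1 hc2 using fun (a : Fin (e + 1)) (i : Fin e) => h.mul a i.succ
  refine finrank_tor (Ideal.span (Set.range g)) h.cover h.proper (Jt e) (dAll g c)
    (exact_dAll h hc2)
    ((Ideal.span (Set.range g)).mkQ ∘ₗ LinearMap.proj (R := A) (φ := fun _ : Jt e 0 => A) ()) ?_ ?_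
    (min_dAll hc1) n
  · intro x
    obtain ⟨r, rfl⟩ := Ideal.Quotient.mk_surjective x
    exact ⟨fun _ => r, rfl⟩
  · intro f
    have h1 : ((Ideal.span (Set.range g)).mkQ ∘ₗ
        LinearMap.proj (R := A) (φ := fun _ : Jt e 0 => A) ()) f = 0 ↔
        f () ∈ Ideal.span (Set.range g) := by
      rw [LinearMap.comp_apply, LinearMap.proj_apply, Submodule.mkQ_apply,
        Submodule.Quotient.mk_eq_zero]
    rw [h1, Ideal.mem_span_range_iff_exists_fun]
    constructor
    · rintro ⟨r, hr⟩
      refine ⟨(fun q : Unit × Fin (e + 1) => r q.2), ?_⟩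
      funext u
      change dZero g _ u = f u
      rw [dZero_apply g _ u]
      rw [show f u = f () from rfl, ← hr]
      exact Finset.sum_congr rfl fun a _ => mul_comm _ _
    · rintro ⟨F, rfl⟩
      refine ⟨fun a => F (((), a) : Unit × Fin (e + 1)), ?_⟩
      rw [show dAll g c 0 = dZero g from rfl]
      rw [dZero_apply g F ()]
      exact Finset.sum_congr rfl fun a _ => mul_comm _ _

end Pool.Agent.H82.Golod
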