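import Pool.Agent.H82.Golod.KoszulOps
import Pool.Agent.H82.Golod.TorPart

/-!
The dimensions of the Koszul homology of a ring of minimal multiplicity (dimension one).
-/

set_option autoImplicit false

namespace Pool.Agent.H82.Golod

open scoped Pointwise

universe u

section ses

variable {k : Type u} [Field k]
variable {X Y W : Type u} [AddCommGroup X] [AddCommGroup Y] [AddCommGroup W]
  [Module k X] [Module k Y] [Module k W]

theorem finrank_ses (f : X →ₗ[k] Y) (g : Y →ₗ[k] W) (hf : Function.Injective f)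
    (hg : Function.Surjective g) (hfg : Function.Exact f g) [Module.Finite k Y] :
    Module.finrank k Y = Module.finrank k X + Module.finrank k W := by
  have h1 := LinearMap.finrank_range_add_finrank_ker g
  have h2 : LinearMap.range g = ⊤ := LinearMap.range_eq_top.2 hg
  have h3 : LinearMap.ker g = LinearMap.range f := by
    ext x
    rw [LinearMap.mem_ker, LinearMap.mem_range]
    exact hfg x
  rw [h2, h3, finrank_top, LinearMap.finrank_range_of_inj hf] at h1
  omega

end ses

variable {k A : Type u} [Field k] [CommRing A] [Algebra k A] {e : ℕ}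
variable {y : Fin (e + 1) → A} {l : A}

/-- elements of degree `j` with coordinates in the ideal of the variables -/
def MM (y : Fin (e + 1) → A) (j : ℕ) : Submodule A (Finset (Fin (e + 1)) → A) :=
  koszulDeg A (e + 1) j ⊓ Submodule.pi Set.univ (fun _ => Ideal.span (Set.range y))

theorem mem_MM {j : ℕ} {f : Finset (Fin (e + 1)) → A} :
    f ∈ MM y j ↔ (∀ S, S.card ≠ j → f S = 0) ∧ ∀ S, f S ∈ Ideal.span (Set.range y) := by
  unfold MM
  rw [Submodule.mem_inf, Submodule.mem_pi]
  simp only [Set.mem_univ, true_implies]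
  exact Iff.rfl

/-- cycles with coordinates in the ideal of the variables -/
def ZZ (y : Fin (e + 1) → A) (j : ℕ) : Submodule A (Finset (Fin (e + 1)) → A) :=
  LinearMap.ker (koszulDiff y) ⊓ MM y j

theorem mem_ZZ {j : ℕ} {f : Finset (Fin (e + 1)) → A} :
    f ∈ ZZ y j ↔ koszulDiff y f = 0 ∧ f ∈ MM y j := by
  unfold ZZ
  rw [Submodule.mem_inf, LinearMap.mem_ker]

theorem diff_deg {r : ℕ} {x : Fin r → A} {j : ℕ} {f : Finset (Fin r) → A}
    (hf : ∀ S, S.card ≠ j + 1 → f S = 0) (S : Finset (Fin r)) (hS : S.card ≠ j) :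
    koszulDiff x f S = 0 := by
  rw [koszulDiff_eq, Finset.sum_apply]
  apply Finset.sum_eq_zero
  intro i _
  rw [Pi.smul_apply, con_apply]
  split_ifs with h
  · rw [smul_zero]
  · rw [hf, mul_zero, smul_zero]
    rw [Finset.card_insert_of_notMem h]
    omega

theorem diff_deg_zero {r : ℕ} {x : Fin r → A} {f : Finset (Fin r) → A}
    (hf : ∀ S, S.card ≠ 0 → f S = 0) : koszulDiff x f = 0 := by
  funext S
  rw [koszulDiff_eq, Finset.sum_apply]
  apply Finset.sum_eq_zero
  intro i _
  rw [Pi.smul_apply, con_apply]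
  split_ifs with h
  · rw [smul_zero]
  · rw [hf, mul_zero, smul_zero]
    rw [Finset.card_insert_of_notMem h]
    omega

theorem wed_deg {r : ℕ} {a : Fin r → A} {j : ℕ} {f : Finset (Fin r) → A}
    (hf : ∀ S, S.card ≠ j → f S = 0) (S : Finset (Fin r)) (hS : S.card ≠ j + 1) :
    wedSum a f S = 0 := by
  rw [wedSum_apply, Finset.sum_apply]
  apply Finset.sum_eq_zero
  intro i _
  rw [Pi.smul_apply, wed_apply]
  split_ifs with h
  · rw [hf, mul_zero, smul_zero]
    rw [Finset.card_erase_of_mem h]
    have := Finset.card_pos.2 ⟨i, h⟩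
    omega
  · rw [smul_zero]

theorem wed_mem (a : Fin (e + 1) → A) {f : Finset (Fin (e + 1)) → A}
    (hf : ∀ S, f S ∈ Ideal.span (Set.range y)) (S : Finset (Fin (e + 1))) :
    wedSum a f S ∈ Ideal.span (Set.range y) := by
  rw [wedSum_apply, Finset.sum_apply]
  apply Ideal.sum_mem
  intro i _
  rw [Pi.smul_apply, wed_apply]
  split_ifs with h
  · exact Ideal.mul_mem_left _ _ (Ideal.mul_mem_left _ _ (hf _))
  · rw [smul_zero]
    exact Ideal.zero_mem _

/-- division of the differential by `l` -/
theorem exists_div (h : MinMult k y l) {j : ℕ} {f : Finset (Fin (e + 1)) → A}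
    (hf : f ∈ MM y (j + 1)) : ∃ f' ∈ ZZ y j, koszulDiff y f = l • f' := by
  rw [mem_MM] at hf
  have h1 : ∀ S, ∃ m ∈ Ideal.span (Set.range y), koszulDiff y f S = l * m := by
    intro S
    have h2 : koszulDiff y f S = ∑ i, y i * con i f S := by
      rw [koszulDiff_eq, Finset.sum_apply]
      rfl
    rw [h2]
    apply h.sum_mul_mem
    intro i
    rw [con_apply]
    split_ifs
    · exact Ideal.zero_mem _
    · exact Ideal.mul_mem_left _ _ (hf.2 _)
  choose m hm hm2 using h1
  have hdeg : ∀ S, S.card ≠ j → m S = 0 := by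
    intro S hS
    apply h.reg
    rw [← hm2]
    exact diff_deg hf.1 S hS
  have heq : koszulDiff y f = l • m := funext hm2
  refine ⟨m, mem_ZZ.2 ⟨?_, mem_MM.2 ⟨hdeg, hm⟩⟩, heq⟩
  have h3 := koszulDiff_sq y f
  rw [heq, map_smul] at h3
  funext S
  apply h.reg
  exact congrFun h3 S

theorem ZZ_le (j : ℕ) : ZZ y j ≤ MM y j := inf_le_right

theorem smul_inj (h : MinMult k y l) {f g : Finset (Fin (e + 1)) → A} (hfg : l • f = l • g) :
    f = g := by
  funext S
  have h1 := congrFun hfg S
  simp only [Pi.smul_apply, smul_eq_mul] at h1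
  have h2 : l * (f S - g S) = 0 := by rw [mul_sub, h1, sub_self]
  exact sub_eq_zero.1 (h.reg _ h2)

/-- the divided differential, as a function -/
noncomputable def deltaFun (h : MinMult k y l) (j : ℕ) (f : MM y (j + 1)) : ZZ y j :=
  ⟨(exists_div h f.2).choose, (exists_div h f.2).choose_spec.1⟩

theorem deltaFun_spec (h : MinMult k y l) (j : ℕ) (f : MM y (j + 1)) :
    koszulDiff y (f : Finset (Fin (e + 1)) → A) =
      l • (deltaFun h j f : Finset (Fin (e + 1)) → A) :=
  (exists_div h f.2).choose_spec.2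

/-- the divided differential -/
noncomputable def delta (h : MinMult k y l) (j : ℕ) : MM y (j + 1) →ₗ[A] ZZ y j where
  toFun f := deltaFun h j f
  map_add' f g := by
    apply Subtype.ext
    apply smul_inj h
    rw [← deltaFun_spec, Submodule.coe_add, map_add, Submodule.coe_add, smul_add,
      ← deltaFun_spec, ← deltaFun_spec]
  map_smul' a f := by
    apply Subtype.ext
    apply smul_inj h
    rw [← deltaFun_spec, Submodule.coe_smul, map_smul, RingHom.id_apply, Submodule.coe_smul,
      smul_comm l a, ← deltaFun_spec]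

theorem delta_spec (h : MinMult k y l) (j : ℕ) (f : MM y (j + 1)) :
    koszulDiff y (f : Finset (Fin (e + 1)) → A) = l • (delta h j f : Finset (Fin (e + 1)) → A) :=
  deltaFun_spec h j f

theorem delta_exact (h : MinMult k y l) (j : ℕ) :
    Function.Exact (Submodule.inclusion (ZZ_le (y := y) (j + 1))) (delta h j) := by
  intro f
  constructor
  · intro hf
    have h1 := delta_spec h j f
    rw [hf] at h1
    have h2 : koszulDiff y (f : Finset (Fin (e + 1)) → A) = 0 := by
      rw [h1]
      exact smul_zero l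
    exact ⟨⟨f, mem_ZZ.2 ⟨h2, f.2⟩⟩, rfl⟩
  · rintro ⟨z, rfl⟩
    apply Subtype.ext
    apply smul_inj h
    rw [← delta_spec h j]
    have h2 := (mem_ZZ.1 z.2).1
    change koszulDiff y (z : Finset (Fin (e + 1)) → A) = _
    rw [h2]
    exact (smul_zero l).symm

theorem delta_surj (h : MinMult k y l) (a : Fin (e + 1) → A) (ha : ∑ i, a i * y i = l) (j : ℕ) :
    Function.Surjective (delta h j) := by
  intro z
  have hz := mem_ZZ.1 z.2
  have hz2 := mem_MM.1 hz.2
  refine ⟨⟨wedSum a z, mem_MM.2 ⟨fun S hS => wed_deg hz2.1 S hS, fun S => wed_mem a hz2.2 S⟩⟩, ?_⟩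
  apply Subtype.ext
  apply smul_inj h
  rw [← delta_spec h j]
  have h1 := homotopy y a (z : Finset (Fin (e + 1)) → A)
  rw [hz.1, map_zero, add_zero, ha] at h1
  exact h1

theorem mem_smul_top {l : A} (N : Submodule A (Finset (Fin (e + 1)) → A)) (z : N) :
    z ∈ (l • ⊤ : Submodule A N) ↔ ∃ w : N, (z : Finset (Fin (e + 1)) → A) = l • (w : _) := by
  rw [Submodule.mem_smul_pointwise_iff_exists]
  constructor
  · rintro ⟨w, -, hw⟩
    exact ⟨w, by rw [← hw]; rfl⟩
  · rintro ⟨w, hw⟩
    exact ⟨w, Submodule.mem_top, Subtype.ext hw.symm⟩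

/-- linear combinations of the variables -/
noncomputable def lin (k : Type u) [Field k] [Algebra k A] (y : Fin (e + 1) → A) (j : ℕ) :
    ({S : Finset (Fin (e + 1)) // S.card = j} × Fin (e + 1) → k) →ₗ[k] MM y j where
  toFun c := ⟨fun S => if hS : S.card = j then
      ∑ a, algebraMap k A (c (⟨S, hS⟩, a)) * y a else 0, by
    rw [mem_MM]
    constructor
    · intro S hS
      rw [dif_neg hS]
    · intro S
      split_ifs with hS
      · exact Ideal.sum_mem _ fun a _ =>
          Ideal.mul_mem_left _ _ (Ideal.subset_span (Set.mem_range_self a))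
      · exact Ideal.zero_mem _⟩
  map_add' c c' := by
    apply Subtype.ext
    funext S
    rw [Submodule.coe_add, Pi.add_apply]
    simp only [Pi.add_apply, map_add, add_mul, Finset.sum_add_distrib]
    split_ifs with hS
    · rfl
    · rw [add_zero]
  map_smul' t c := by
    apply Subtype.ext
    funext S
    rw [RingHom.id_apply, Submodule.coe_smul_of_tower, Pi.smul_apply]
    simp only [Pi.smul_apply, smul_eq_mul, map_mul, Algebra.smul_def]
    split_ifs with hS
    · rw [Finset.mul_sum]
      exact Finset.sum_congr rfl fun a _ => by ring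
    · rw [mul_zero]

theorem lin_apply (j : ℕ) (c : {S : Finset (Fin (e + 1)) // S.card = j} × Fin (e + 1) → k)
    (S : Finset (Fin (e + 1))) (hS : S.card = j) :
    (lin k y j c : Finset (Fin (e + 1)) → A) S = ∑ a, algebraMap k A (c (⟨S, hS⟩, a)) * y a :=
  dif_pos hS

theorem finrank_MM (h : MinMult k y l) (j : ℕ) :
    Module.Finite k (QuotSMulTop l (MM y j)) ∧
      Module.finrank k (QuotSMulTop l (MM y j)) = (e + 1).choose j * (e + 1) := by
  let F : ({S : Finset (Fin (e + 1)) // S.card = j} × Fin (e + 1) → k) →ₗ[k]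
      QuotSMulTop l (MM y j) :=
    ((l • ⊤ : Submodule A (MM y j)).mkQ.restrictScalars k) ∘ₗ lin k y j
  have hF : ∀ c, F c = Submodule.Quotient.mk (lin k y j c) := fun c => rfl
  have hinj : Function.Injective F := by
    rw [injective_iff_map_eq_zero]
    intro c hc
    rw [hF, Submodule.Quotient.mk_eq_zero, mem_smul_top] at hc
    obtain ⟨w, hw⟩ := hc
    funext q
    obtain ⟨⟨S, hS⟩, a⟩ := q
    have h1 := congrFun hw S
    rw [lin_apply j c S hS, Pi.smul_apply, smul_eq_mul] at h1
    exact h.indep (fun a => c (⟨S, hS⟩, a)) ⟨_, (mem_MM.1 w.2).2 S, h1⟩ a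
  have hsurj : Function.Surjective F := by
    intro x
    obtain ⟨f, rfl⟩ := Submodule.Quotient.mk_surjective _ x
    have hf := mem_MM.1 f.2
    have h1 : ∀ S, ∃ (c : Fin (e + 1) → k) (m : A), m ∈ Ideal.span (Set.range y) ∧
        (f : Finset (Fin (e + 1)) → A) S = ∑ a, algebraMap k A (c a) * y a + l * m := by
      intro S
      obtain ⟨r, hr⟩ := (Ideal.mem_span_range_iff_exists_fun).1 (hf.2 S)
      choose c hc using h.cover
      obtain ⟨m, hm, hm2⟩ := h.sum_mul_mem (fun a => r a - algebraMap k A (c (r a)))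
        (fun a => hc (r a))
      refine ⟨fun a => c (r a), m, hm, ?_⟩
      rw [← hm2, ← hr, ← Finset.sum_add_distrib]
      exact Finset.sum_congr rfl fun a _ => by ring
    choose c m hm hcm using h1
    refine ⟨fun q => c q.1.1 q.2, ?_⟩
    rw [hF, ← sub_eq_zero, ← Submodule.Quotient.mk_sub, Submodule.Quotient.mk_eq_zero,
      mem_smul_top]
    refine ⟨⟨fun S => if S.card = j then -m S else 0, mem_MM.2 ⟨fun S hS => if_neg hS, ?_⟩⟩, ?_⟩
    · intro S
      split_ifs with hS
      · exact Submodule.neg_mem _ (hm S)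
      · exact Ideal.zero_mem _
    · funext S
      rw [Submodule.coe_sub, Pi.sub_apply, Pi.smul_apply, smul_eq_mul]
      change _ = l * (if S.card = j then -m S else 0)
      by_cases hS : S.card = j
      · rw [lin_apply j _ S hS, if_pos hS, hcm S]
        ring
      · rw [(mem_MM.1 (lin k y j _).2).1 S hS, hf.1 S hS, if_neg hS]
        ring
  let E := LinearEquiv.ofBijective F ⟨hinj, hsurj⟩
  refine ⟨Module.Finite.equiv E, ?_⟩
  rw [← E.finrank_eq, Module.finrank_fintype_fun_eq_card, Fintype.card_prod, Fintype.card_fin,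
    Fintype.card_finset_len, Fintype.card_fin]

theorem finrank_ZZ (h : MinMult k y l) (a : Fin (e + 1) → A) (ha : ∑ i, a i * y i = l) (j : ℕ) :
    Module.Finite k (QuotSMulTop l (ZZ y j)) ∧
      Module.finrank k (QuotSMulTop l (ZZ y j)) = (e + 1) * e.choose j := by
  induction j with
  | zero =>
    have h1 : ZZ y 0 = MM y 0 := by
      apply le_antisymm (ZZ_le 0)
      intro f hf
      exact mem_ZZ.2 ⟨diff_deg_zero (mem_MM.1 hf).1, hf⟩
    have h2 := finrank_MM h 0
    rw [h1]
    refine ⟨h2.1, ?_⟩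
    rw [h2.2]
    simp
  | succ j ih =>
    obtain ⟨hfin, hrank⟩ := finrank_MM h (j + 1)
    have hinj : Function.Injective
        ((QuotSMulTop.map l (Submodule.inclusion (ZZ_le (y := y) (j + 1)))).restrictScalars k) := by
      rw [injective_iff_map_eq_zero]
      intro x hx
      obtain ⟨z, rfl⟩ := Submodule.Quotient.mk_surjective _ x
      rw [LinearMap.restrictScalars_apply, QuotSMulTop.map_apply_mk,
        Submodule.Quotient.mk_eq_zero, mem_smul_top] at hx
      obtain ⟨w, hw⟩ := hx
      have hw' : (z : Finset (Fin (e + 1)) → A) = l • (w : Finset (Fin (e + 1)) → A) := hw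
      rw [Submodule.Quotient.mk_eq_zero, mem_smul_top]
      have h3 : koszulDiff y (w : Finset (Fin (e + 1)) → A) = 0 := by
        apply smul_inj h
        have h5 : l • koszulDiff y (w : Finset (Fin (e + 1)) → A) =
            koszulDiff y (l • (w : Finset (Fin (e + 1)) → A)) := (map_smul _ _ _).symm
        rw [smul_zero, h5, ← hw']
        exact (mem_ZZ.1 z.2).1
      exact ⟨⟨w, mem_ZZ.2 ⟨h3, w.2⟩⟩, hw'⟩
    have hsurj : Function.Surjective ((QuotSMulTop.map l (delta h j)).restrictScalars k) :=
      QuotSMulTop.map_surjective l (delta_surj h a ha j)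
    have hex : Function.Exact
        ((QuotSMulTop.map l (Submodule.inclusion (ZZ_le (y := y) (j + 1)))).restrictScalars k)
        ((QuotSMulTop.map l (delta h j)).restrictScalars k) :=
      QuotSMulTop.map_exact l (delta_exact h j) (delta_surj h a ha j)
    have h4 := finrank_ses _ _ hinj hsurj hex
    refine ⟨Module.Finite.of_injective _ hinj, ?_⟩
    rw [hrank, ih.2, Nat.choose_succ_succ] at h4
    have h5 : (e.choose j + e.choose (j + 1)) * (e + 1) =
        (e + 1) * e.choose (j + 1) + (e + 1) * e.choose j := by ring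
    rw [h5] at h4
    exact (Nat.add_right_cancel h4).symm

/-- constant coordinates -/
noncomputable def cst (k : Type u) [Field k] (A : Type u) [CommRing A] [Algebra k A] (e j : ℕ) :
    ({S : Finset (Fin (e + 1)) // S.card = j} → k) →ₗ[k] (Finset (Fin (e + 1)) → A) where
  toFun c := fun S => if hS : S.card = j then algebraMap k A (c ⟨S, hS⟩) else 0
  map_add' c c' := by
    funext S
    rw [Pi.add_apply]
    simp only [Pi.add_apply, map_add]
    split_ifs with hS
    · rfl
    · rw [add_zero]
  map_smul' t c := by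
    funext S
    rw [RingHom.id_apply, Pi.smul_apply]
    simp only [Pi.smul_apply, smul_eq_mul, map_mul, Algebra.smul_def]
    split_ifs with hS
    · rfl
    · rw [mul_zero]

theorem cst_apply (j : ℕ) (c : {S : Finset (Fin (e + 1)) // S.card = j} → k)
    (S : Finset (Fin (e + 1))) (hS : S.card = j) :
    cst k A e j c S = algebraMap k A (c ⟨S, hS⟩) := dif_pos hS

theorem cst_deg (j : ℕ) (c : {S : Finset (Fin (e + 1)) // S.card = j} → k)
    (S : Finset (Fin (e + 1))) (hS : S.card ≠ j) :
    cst k A e j c S = 0 := dif_neg hS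

theorem diff_mem (f : Finset (Fin (e + 1)) → A) (S : Finset (Fin (e + 1))) :
    koszulDiff y f S ∈ Ideal.span (Set.range y) := by
  rw [koszulDiff_eq, Finset.sum_apply]
  exact Ideal.sum_mem _ fun i _ =>
    Ideal.mul_mem_right _ _ (Ideal.subset_span (Set.mem_range_self i))

/-- elements of positive degree whose differential is small have coordinates in the ideal -/
theorem mem_MM_of_diff (h : MinMult k y l) {j : ℕ} {f : Finset (Fin (e + 1)) → A}
    (hf : ∀ S, S.card ≠ j + 1 → f S = 0)
    (hd : ∀ S, ∃ m ∈ Ideal.span (Set.range y), koszulDiff y f S = l * m) : f ∈ MM y (j + 1) := by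
  refine mem_MM.2 ⟨hf, ?_⟩
  intro T
  by_cases hT : T.card = j + 1
  swap
  · rw [hf T hT]
    exact Ideal.zero_mem _
  obtain ⟨i, hi⟩ := Finset.card_pos.1 (by omega : 0 < T.card)
  obtain ⟨m, hm, hm2⟩ := hd (T.erase i)
  have h1 : koszulDiff y f (T.erase i) = ∑ a, y a * con a f (T.erase i) := by
    rw [koszulDiff_eq, Finset.sum_apply]
    rfl
  rw [h1] at hm2
  have h2 := h.mem_of_sum (fun a => con a f (T.erase i)) ⟨m, hm, hm2⟩ i
  rw [con_apply, if_neg (Finset.notMem_erase i T), Finset.insert_erase hi] at h2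
  have h3 := Ideal.mul_mem_left _ (sg A i (T.erase i)) h2
  rwa [← mul_assoc, sg_mul_self, one_mul] at h3

theorem cycles_le (h : MinMult k y l) (j : ℕ) : koszulCycles y (j + 1) ≤ ZZ y (j + 1) := by
  intro f hf
  unfold koszulCycles at hf
  rw [Submodule.mem_inf, LinearMap.mem_ker] at hf
  refine mem_ZZ.2 ⟨hf.1, mem_MM_of_diff h hf.2 ?_⟩
  intro S
  refine ⟨0, Ideal.zero_mem _, ?_⟩
  rw [hf.1, mul_zero]
  rfl

theorem le_cycles (j : ℕ) : ZZ y j ≤ koszulCycles y j := by
  intro f hf
  rw [mem_ZZ, mem_MM] at hf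
  unfold koszulCycles
  rw [Submodule.mem_inf, LinearMap.mem_ker]
  exact ⟨hf.1, hf.2.1⟩

/-- the boundary of a constant element -/
noncomputable def bdc (k : Type u) [Field k] [Algebra k A] (y : Fin (e + 1) → A) (j : ℕ) :
    ({S : Finset (Fin (e + 1)) // S.card = j + 1} → k) →ₗ[k] ZZ y j where
  toFun c := ⟨koszulDiff y (cst k A e (j + 1) c), mem_ZZ.2 ⟨koszulDiff_sq _ _,
    mem_MM.2 ⟨fun S hS => diff_deg (cst_deg (j + 1) c) S hS, fun S => diff_mem _ S⟩⟩⟩
  map_add' c c' := by
    apply Subtype.ext
    rw [Submodule.coe_add]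
    simp only [map_add]
  map_smul' t c := by
    apply Subtype.ext
    rw [RingHom.id_apply, Submodule.coe_smul_of_tower]
    simp only [map_smul]
    exact ((koszulDiff y).restrictScalars k).map_smul t _

theorem finrank_koszul (h : MinMult k y l) (a : Fin (e + 1) → A) (ha : ∑ i, a i * y i = l)
    (j : ℕ) : Module.finrank k (KoszulHomology y (j + 1)) + (e + 1).choose (j + 2) =
      (e + 1) * e.choose (j + 1) := by
  obtain ⟨hfin, hrank⟩ := finrank_ZZ h a ha (j + 1)
  -- the projection
  have hle : (l • ⊤ : Submodule A (ZZ y (j + 1))) ≤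
      ((koszulBoundaries y (j + 1)).submoduleOf (koszulCycles y (j + 1))).comap
        (Submodule.inclusion (le_cycles (y := y) (j + 1))) := by
    intro z hz
    rw [mem_smul_top] at hz
    obtain ⟨w, hw⟩ := hz
    have hw2 := mem_ZZ.1 w.2
    have hw3 := mem_MM.1 hw2.2
    rw [Submodule.mem_comap]
    change (z : Finset (Fin (e + 1)) → A) ∈ koszulBoundaries y (j + 1)
    refine ⟨wedSum a w, fun S hS => wed_deg hw3.1 S hS, ?_⟩
    have h1 := homotopy y a (w : Finset (Fin (e + 1)) → A)
    rw [hw2.1, map_zero, add_zero, ha] at h1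
    rw [h1, hw]
  let π : QuotSMulTop l (ZZ y (j + 1)) →ₗ[A] KoszulHomology y (j + 1) :=
    Submodule.mapQ _ _ (Submodule.inclusion (le_cycles (y := y) (j + 1))) hle
  have hπ : ∀ z, π (Submodule.Quotient.mk z) =
      Submodule.Quotient.mk (Submodule.inclusion (le_cycles (y := y) (j + 1)) z) := fun z => rfl
  have hπsurj : Function.Surjective (π.restrictScalars k) := by
    intro x
    obtain ⟨z, rfl⟩ := Submodule.Quotient.mk_surjective _ x
    exact ⟨Submodule.Quotient.mk ⟨z, cycles_le h j z.2⟩, rfl⟩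
  -- the inclusion
  let φ : ({S : Finset (Fin (e + 1)) // S.card = j + 2} → k) →ₗ[k] QuotSMulTop l (ZZ y (j + 1)) :=
    ((l • ⊤ : Submodule A (ZZ y (j + 1))).mkQ.restrictScalars k) ∘ₗ bdc k y (j + 1)
  have hφ : ∀ c, φ c = Submodule.Quotient.mk (bdc k y (j + 1) c) := fun c => rfl
  have hφinj : Function.Injective φ := by
    rw [injective_iff_map_eq_zero]
    intro c hc
    rw [hφ, Submodule.Quotient.mk_eq_zero, mem_smul_top] at hc
    obtain ⟨w, hw⟩ := hc
    have hw' : koszulDiff y (cst k A e (j + 2) c) = l • (w : Finset (Fin (e + 1)) → A) := hw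
    have h1 : cst k A e (j + 2) c ∈ MM y (j + 1 + 1) := by
      apply mem_MM_of_diff h (cst_deg (j + 2) c)
      intro S
      exact ⟨_, (mem_MM.1 (mem_ZZ.1 w.2).2).2 S, congrFun hw' S⟩
    funext S
    have h2 := (mem_MM.1 h1).2 S
    rw [cst_apply (j + 2) c S S.2] at h2
    by_contra hne
    apply h.proper
    have h3 := Ideal.mul_mem_left _ (algebraMap k A (c S)⁻¹) h2
    rwa [← map_mul, inv_mul_cancel₀ hne, map_one] at h3
  have hex : Function.Exact φ (π.restrictScalars k) := by
    intro x
    obtain ⟨z, rfl⟩ := Submodule.Quotient.mk_surjective _ x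
    rw [LinearMap.restrictScalars_apply, hπ, Submodule.Quotient.mk_eq_zero]
    constructor
    · intro hz
      have hz' : (z : Finset (Fin (e + 1)) → A) ∈ koszulBoundaries y (j + 1) := hz
      obtain ⟨f, hf, hfz⟩ := hz'
      choose c hc using h.cover
      refine ⟨fun S => c (f S), ?_⟩
      obtain ⟨f0, hf0⟩ : ∃ f0, f0 = cst k A e (j + 2) (fun S => c (f S)) := ⟨_, rfl⟩
      have hf1 : ∀ S, S.card ≠ j + 2 → f0 S = 0 := by
        intro S hS
        rw [hf0]
        exact cst_deg (j + 2) _ S hS
      have hm : f - f0 ∈ MM y (j + 1 + 1) := by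
        refine mem_MM.2 ⟨?_, ?_⟩
        · intro S hS
          rw [Pi.sub_apply, hf S hS, hf1 S hS, sub_zero]
        · intro S
          by_cases hS : S.card = j + 2
          · rw [Pi.sub_apply, hf0, cst_apply (j + 2) _ S hS]
            exact hc (f S)
          · rw [Pi.sub_apply, hf S hS, hf1 S hS, sub_zero]
            exact Ideal.zero_mem _
      obtain ⟨w, hw, hw2⟩ := exists_div h hm
      rw [hφ, ← sub_eq_zero, ← Submodule.Quotient.mk_sub, Submodule.Quotient.mk_eq_zero,
        mem_smul_top]
      refine ⟨-⟨w, hw⟩, ?_⟩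
      rw [Submodule.coe_sub, Submodule.coe_neg]
      change koszulDiff y (cst k A e (j + 2) (fun S => c (f S))) -
        (z : Finset (Fin (e + 1)) → A) = l • -w
      rw [← hf0, ← hfz, smul_neg, ← hw2, map_sub]
      abel
    · rintro ⟨c, hc⟩
      rw [hφ, ← sub_eq_zero, ← Submodule.Quotient.mk_sub, Submodule.Quotient.mk_eq_zero] at hc
      have h1 := hle hc
      rw [Submodule.mem_comap, map_sub] at h1
      have h2 : Submodule.inclusion (le_cycles (y := y) (j + 1)) (bdc k y (j + 1) c) ∈
          (koszulBoundaries y (j + 1)).submoduleOf (koszulCycles y (j + 1)) :=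
        ⟨cst k A e (j + 2) c, cst_deg (j + 2) c, rfl⟩
      have h3 := Submodule.sub_mem _ h2 h1
      rwa [sub_sub_cancel] at h3
  have h4 := finrank_ses φ (π.restrictScalars k) hφinj hπsurj hex
  rw [hrank, Module.finrank_fintype_fun_eq_card, Fintype.card_finset_len, Fintype.card_fin] at h4
  omega

end Pool.Agent.H82.Golod
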