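import Pool.Agent.H82.Golod.Defs

/-!
Contractions and multiplications on the free module with basis the subsets of `Fin r`.
-/

set_option autoImplicit false

namespace Pool.Agent.H82.Golod

universe u

variable {A : Type u} [CommRing A] {r : ℕ}

/-- the sign -/
def sg (A : Type u) [CommRing A] (i : Fin r) (S : Finset (Fin r)) : A :=
  (-1) ^ (S.filter (· < i)).card

theorem sg_mul_self (i : Fin r) (S : Finset (Fin r)) : sg A i S * sg A i S = 1 := by
  unfold sg
  rw [← mul_pow, neg_one_mul, neg_neg, one_pow]

theorem sg_insert_lt {i x : Fin r} {S : Finset (Fin r)} (hx : x ∉ S) (h : x < i) :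
    sg A i (insert x S) = - sg A i S := by
  unfold sg
  rw [Finset.filter_insert, if_pos h, Finset.card_insert_of_notMem, pow_succ]
  · ring
  · intro h1
    exact hx (Finset.mem_filter.1 h1).1

theorem sg_insert_not_lt {i x : Fin r} {S : Finset (Fin r)} (h : ¬ x < i) :
    sg A i (insert x S) = sg A i S := by
  unfold sg
  rw [Finset.filter_insert, if_neg h]

/-- contraction with a basis vector of the dual -/
def con (i : Fin r) : (Finset (Fin r) → A) →ₗ[A] (Finset (Fin r) → A) where
  toFun f S := if i ∈ S then 0 else sg A i S * f (insert i S)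
  map_add' f g := by
    funext S
    simp only [Pi.add_apply]
    split_ifs <;> ring
  map_smul' a f := by
    funext S
    simp only [Pi.smul_apply, smul_eq_mul, RingHom.id_apply]
    split_ifs <;> ring

/-- multiplication with a basis vector -/
def wed (j : Fin r) : (Finset (Fin r) → A) →ₗ[A] (Finset (Fin r) → A) where
  toFun f S := if j ∈ S then sg A j (S.erase j) * f (S.erase j) else 0
  map_add' f g := by
    funext S
    simp only [Pi.add_apply]
    split_ifs <;> ring
  map_smul' a f := by
    funext S
    simp only [Pi.smul_apply, smul_eq_mul, RingHom.id_apply]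
    split_ifs <;> ring

theorem con_apply (i : Fin r) (f : Finset (Fin r) → A) (S : Finset (Fin r)) :
    con i f S = if i ∈ S then 0 else sg A i S * f (insert i S) := rfl

theorem wed_apply (i : Fin r) (f : Finset (Fin r) → A) (S : Finset (Fin r)) :
    wed i f S = if i ∈ S then sg A i (S.erase i) * f (S.erase i) else 0 := rfl

theorem con_con (i j : Fin r) (f : Finset (Fin r) → A) : con i (con j f) + con j (con i f) = 0 := by
  funext S
  simp only [Pi.add_apply, con_apply, Pi.zero_apply]
  by_cases hij : i = j
  · subst hij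
    by_cases hi : i ∈ S <;> simp [hi]
  by_cases hi : i ∈ S
  · simp [hi]
  by_cases hj : j ∈ S
  · simp [hj]
  have h1 : j ∉ insert i S := by
    rw [Finset.mem_insert, not_or]
    exact ⟨Ne.symm hij, hj⟩
  have h2 : i ∉ insert j S := by
    rw [Finset.mem_insert, not_or]
    exact ⟨hij, hi⟩
  rw [if_neg hi, if_neg h1, if_neg hj, if_neg h2, Finset.insert_comm j i]
  rcases lt_or_gt_of_ne hij with h | h
  · rw [sg_insert_lt hi h, sg_insert_not_lt (not_lt.2 h.le)]
    ring
  · rw [sg_insert_lt hj h, sg_insert_not_lt (not_lt.2 h.le)]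
    ring

theorem con_wed_self (i : Fin r) (f : Finset (Fin r) → A) : con i (wed i f) + wed i (con i f) = f := by
  funext S
  simp only [Pi.add_apply, con_apply, wed_apply]
  by_cases hi : i ∈ S
  · simp only [hi, if_true, Finset.mem_erase, ne_eq, not_true_eq_false, false_and, if_false,
      Finset.insert_erase, zero_add]
    rw [← mul_assoc, sg_mul_self, one_mul]
  · simp only [hi, if_false, Finset.mem_insert, true_or, if_true,
      Finset.erase_insert_eq_erase, Finset.erase_eq_of_notMem hi, add_zero]
    rw [← mul_assoc, sg_mul_self, one_mul]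

theorem con_wed (i j : Fin r) (hij : i ≠ j) (f : Finset (Fin r) → A) :
    con i (wed j f) + wed j (con i f) = 0 := by
  funext S
  simp only [Pi.add_apply, con_apply, wed_apply, Pi.zero_apply]
  by_cases hi : i ∈ S
  · have h1 : i ∈ S.erase j := Finset.mem_erase.2 ⟨hij, hi⟩
    simp [hi, h1]
  by_cases hj : j ∈ S
  swap
  · have h1 : j ∉ insert i S := by
      rw [Finset.mem_insert, not_or]
      exact ⟨Ne.symm hij, hj⟩
    simp [hj, h1]
  have h1 : j ∈ insert i S := Finset.mem_insert_of_mem hj
  have h2 : i ∉ S.erase j := fun h => hi (Finset.mem_of_mem_erase h)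
  have h3 : (insert i S).erase j = insert i (S.erase j) := by
    rw [Finset.erase_insert_of_ne hij]
  have h4 : insert j (S.erase j) = S := Finset.insert_erase hj
  have h5 : j ∉ S.erase j := Finset.notMem_erase j S
  rw [if_neg hi, if_pos h1, if_pos hj, if_neg h2, h3]
  have h6 : sg A i S = sg A i (insert j (S.erase j)) := by rw [h4]
  rw [h6]
  rcases lt_or_gt_of_ne hij with h | h
  · rw [sg_insert_lt h2 h, sg_insert_not_lt (not_lt.2 h.le)]
    ring
  · rw [sg_insert_lt h5 h, sg_insert_not_lt (not_lt.2 h.le)]
    ring

theorem koszulDiff_eq (x : Fin r → A) (f : Finset (Fin r) → A) :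
    koszulDiff x f = ∑ i, x i • con i f := by
  funext S
  rw [Finset.sum_apply]
  change ∑ i ∈ Sᶜ, (-1) ^ (S.filter (· < i)).card * x i * f (insert i S) = _
  rw [← Finset.sum_subset (Finset.subset_univ Sᶜ)]
  · refine Finset.sum_congr rfl fun i hi => ?_
    rw [Pi.smul_apply, con_apply, if_neg (Finset.mem_compl.1 hi), smul_eq_mul]
    unfold sg
    ring
  · intro i _ hi
    rw [Finset.mem_compl, not_not] at hi
    rw [Pi.smul_apply, con_apply, if_pos hi, smul_zero]

theorem koszulDiff_sq (x : Fin r → A) (f : Finset (Fin r) → A) :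
    koszulDiff x (koszulDiff x f) = 0 := by
  have h1 : koszulDiff x (koszulDiff x f) = ∑ i, ∑ j, (x i * x j) • con i (con j f) := by
    rw [koszulDiff_eq x (koszulDiff x f)]
    refine Finset.sum_congr rfl fun i _ => ?_
    rw [koszulDiff_eq x f, map_sum, Finset.smul_sum]
    refine Finset.sum_congr rfl fun j _ => ?_
    rw [map_smul, smul_smul]
  -- antisymmetry, without dividing by two
  have h2 : ∀ (F : Fin r → Fin r → (Finset (Fin r) → A)), (∀ i, F i i = 0) →
      (∀ i j, F i j + F j i = 0) → ∑ i, ∑ j, F i j = 0 := by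
    intro F hF0 hF
    have h3 : ∑ i, ∑ j, F i j = ∑ p ∈ (Finset.univ : Finset (Fin r × Fin r)), F p.1 p.2 := by
      rw [← Finset.univ_product_univ, Finset.sum_product]
    rw [h3]
    refine Finset.sum_involution (fun p _ => (p.2, p.1)) ?_ ?_ ?_ ?_
    · intro p _
      exact hF p.1 p.2
    · intro p _ hp h4
      apply hp
      have h5 : p.1 = p.2 := (congrArg Prod.snd h4)
      rw [h5]
      exact hF0 _
    · intro p _
      exact Finset.mem_univ _
    · intro p _
      rfl
  rw [h1]
  apply h2
  · intro i
    have h6 : con i (con i f) = 0 := by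
      funext S
      rw [con_apply]
      by_cases hi : i ∈ S
      · simp [hi]
      · simp [hi, con_apply]
    rw [h6, smul_zero]
  · intro i j
    rw [mul_comm (x j) (x i), ← smul_add, con_con, smul_zero]

/-- multiplication with a linear combination of basis vectors -/
def wedSum (a : Fin r → A) : (Finset (Fin r) → A) →ₗ[A] (Finset (Fin r) → A) :=
  ∑ i, a i • wed i

theorem wedSum_apply (a : Fin r → A) (f : Finset (Fin r) → A) :
    wedSum a f = ∑ i, a i • wed i f := by
  simp [wedSum]

/-- the homotopy formula -/
theorem homotopy (x a : Fin r → A) (f : Finset (Fin r) → A) :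
    koszulDiff x (wedSum a f) + wedSum a (koszulDiff x f) = (∑ i, a i * x i) • f := by
  have h1 : koszulDiff x (wedSum a f) = ∑ i, ∑ j, (x i * a j) • con i (wed j f) := by
    rw [koszulDiff_eq]
    refine Finset.sum_congr rfl fun i _ => ?_
    rw [wedSum_apply, map_sum, Finset.smul_sum]
    refine Finset.sum_congr rfl fun j _ => ?_
    rw [map_smul, smul_smul]
  have h2 : wedSum a (koszulDiff x f) = ∑ i, ∑ j, (x i * a j) • wed j (con i f) := by
    rw [wedSum_apply, Finset.sum_comm]
    refine Finset.sum_congr rfl fun j _ => ?_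
    rw [koszulDiff_eq, map_sum, Finset.smul_sum]
    refine Finset.sum_congr rfl fun i _ => ?_
    rw [map_smul, smul_smul, mul_comm]
  rw [h1, h2, ← Finset.sum_add_distrib, Finset.sum_smul]
  refine Finset.sum_congr rfl fun i _ => ?_
  rw [← Finset.sum_add_distrib]
  simp_rw [← smul_add]
  rw [Finset.sum_eq_single i]
  · rw [con_wed_self, mul_comm]
  · intro j _ hji
    rw [con_wed i j (Ne.symm hji), smul_zero]
  · intro h
    exact absurd (Finset.mem_univ i) h

end Pool.Agent.H82.Golod
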