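import Pool.Agent.H82.Golod.Hankel36

/-!
The ring of the generic Hankel matrix of size 3 x 6 is Golod.
-/

set_option autoImplicit false

namespace Pool.Agent.H82.Golod

universe u

open MvPolynomial

variable {k : Type u} [Field k]

/-- closure of the normal forms under multiplication, in a general algebra -/
theorem nf_mul {A : Type u} [CommRing A] [Algebra k A] (y : Fin 8 → A) (l : A)
    (hl : l = y 0 + y 7)
    (hy : ∀ a b, ∃ (t : k) (c : Fin 8), y a * y b = l * (algebraMap k A t * y c))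
    (c : k) (p : Fin 8 → Polynomial k) (b : Fin 8) :
    ∃ p' : Fin 8 → Polynomial k,
      (algebraMap k A c + ∑ a, Polynomial.aeval l (p a) * y a) * y b =
        ∑ a, Polynomial.aeval l (p' a) * y a := by
  choose t s hts using hy
  refine ⟨fun d => (if d = b then Polynomial.C c else 0) +
    ∑ a, if s a b = d then Polynomial.C (t a b) * Polynomial.X * p a else 0, ?_⟩
  have h1 : ∀ d, Polynomial.aeval l ((if d = b then Polynomial.C c else 0) +
      ∑ a, if s a b = d then Polynomial.C (t a b) * Polynomial.X * p a else 0) =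
      (if d = b then algebraMap k A c else 0) +
      ∑ a, if s a b = d then algebraMap k A (t a b) * l * Polynomial.aeval l (p a) else 0 := by
    intro d
    rw [map_add, map_sum]
    congr 1
    · split_ifs
      · rw [Polynomial.aeval_C]
      · rw [map_zero]
    · refine Finset.sum_congr rfl fun a _ => ?_
      split_ifs
      · rw [map_mul, map_mul, Polynomial.aeval_C, Polynomial.aeval_X]
      · rw [map_zero]
  simp_rw [h1, add_mul, Finset.sum_add_distrib, Finset.sum_mul]
  congr 1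
  · rw [Finset.sum_eq_single b]
    · rw [if_pos rfl]
    · intro d _ hd
      rw [if_neg hd, zero_mul]
    · intro h
      exact absurd (Finset.mem_univ b) h
  · rw [Finset.sum_comm]
    refine Finset.sum_congr rfl fun a _ => ?_
    rw [Finset.sum_eq_single (s a b)]
    · rw [if_pos rfl, mul_assoc, hts]
      ring
    · intro d _ hd
      rw [if_neg (Ne.symm hd), zero_mul]
    · intro h
      exact absurd (Finset.mem_univ _) h

theorem mk_nf (c : k) (p : Fin 8 → Polynomial k) :
    Ideal.Quotient.mk (I36 k) (nf k c p) =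
      algebraMap k (MvPolynomial (Fin 8) k ⧸ I36 k) c +
        ∑ a, Polynomial.aeval (yy k 0 + yy k 7) (p a) * yy k a := by
  unfold nf
  rw [map_add, map_sum]
  congr 1
  refine Finset.sum_congr rfl fun a _ => ?_
  rw [map_mul]
  congr 1
  have h1 : (yy k 0 + yy k 7) = Ideal.Quotient.mkₐ k (I36 k) (X 0 + X 7) := by
    rw [map_add]
    rfl
  rw [h1, Polynomial.aeval_algHom_apply]
  rfl

theorem exists_nf (h2 : (2 : k) ≠ 0) (r : MvPolynomial (Fin 8) k ⧸ I36 k) :
    ∃ (c : k) (p : Fin 8 → Polynomial k), r = Ideal.Quotient.mk (I36 k) (nf k c p) := by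
  obtain ⟨q, rfl⟩ := Ideal.Quotient.mk_surjective r
  induction q using MvPolynomial.induction_on with
  | C a =>
    refine ⟨a, 0, ?_⟩
    rw [mk_nf]
    simp only [Pi.zero_apply, map_zero, zero_mul, Finset.sum_const_zero, add_zero]
    rfl
  | add p q hp hq =>
    obtain ⟨c, f, hf⟩ := hp
    obtain ⟨d, g, hg⟩ := hq
    refine ⟨c + d, f + g, ?_⟩
    rw [map_add, hf, hg, mk_nf, mk_nf, mk_nf]
    simp only [Pi.add_apply, map_add, add_mul, Finset.sum_add_distrib]
    ring
  | mul_X p b hp =>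
    obtain ⟨c, f, hf⟩ := hp
    obtain ⟨p', hp'⟩ := nf_mul (yy k) (yy k 0 + yy k 7) rfl (yy_mul h2) c f b
    refine ⟨0, p', ?_⟩
    rw [map_mul, hf, mk_nf, mk_nf, map_zero, zero_add, ← hp']
    rfl

/-- The ideal is contained in the ideal of polynomials without constant term. -/
theorem I36_le_ker : I36 k ≤ RingHom.ker (constantCoeff (R := k) (σ := Fin 8)) := by
  unfold I36 permIdeal
  rw [Ideal.span_le]
  rintro p ⟨i, i', j, j', hi, hj, rfl⟩
  rw [SetLike.mem_coe, RingHom.mem_ker]
  simp [hankel]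

theorem nf_sum_mem (p : Fin 8 → Polynomial k) :
    Ideal.Quotient.mk (I36 k) (nf k 0 p) ∈ Ideal.span (Set.range (yy k)) := by
  rw [mk_nf, map_zero, zero_add]
  exact Ideal.sum_mem _ fun a _ => Ideal.mul_mem_left _ _ (Ideal.subset_span ⟨a, rfl⟩)

theorem one_notMem : (1 : MvPolynomial (Fin 8) k ⧸ I36 k) ∉ Ideal.span (Set.range (yy k)) := by
  intro h
  obtain ⟨r, hr⟩ := (Ideal.mem_span_range_iff_exists_fun).1 h
  choose q hq using fun a => Ideal.Quotient.mk_surjective (r a)
  have h1 : Ideal.Quotient.mk (I36 k) (∑ a, q a * X a - 1) = 0 := by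
    rw [map_sub, map_sum, map_one, sub_eq_zero, ← hr]
    refine Finset.sum_congr rfl fun a _ => ?_
    rw [map_mul, hq]
    rfl
  rw [Ideal.Quotient.eq_zero_iff_mem] at h1
  have h2 := I36_le_ker h1
  rw [RingHom.mem_ker, map_sub, map_sum, map_one] at h2
  simp at h2

theorem mem_span_iff_nf (h2 : (2 : k) ≠ 0) {m : MvPolynomial (Fin 8) k ⧸ I36 k}
    (hm : m ∈ Ideal.span (Set.range (yy k))) :
    ∃ p : Fin 8 → Polynomial k, m = Ideal.Quotient.mk (I36 k) (nf k 0 p) := by
  obtain ⟨c, p, rfl⟩ := exists_nf h2 m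
  have h1 := Ideal.sub_mem _ hm (nf_sum_mem p)
  have h3 : Ideal.Quotient.mk (I36 k) (nf k c p) - Ideal.Quotient.mk (I36 k) (nf k 0 p) =
      algebraMap k (MvPolynomial (Fin 8) k ⧸ I36 k) c := by
    rw [mk_nf, mk_nf, map_zero, zero_add, add_sub_cancel_right]
  rw [h3] at h1
  have hc : c = 0 := by
    by_contra hne
    apply one_notMem (k := k)
    have h4 := Ideal.mul_mem_left _ (algebraMap k (MvPolynomial (Fin 8) k ⧸ I36 k) c⁻¹) h1
    rwa [← map_mul, inv_mul_cancel₀ hne, map_one] at h4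
  exact ⟨p, by rw [hc]⟩

theorem psi_const (w : Fin 8 → ℕ) (hw : (w 0 = 0 ∧ w 7 = 7) ∨ (w 0 = 7 ∧ w 7 = 0)) :
    ∃ v : Polynomial k, v ≠ 0 ∧ psi k w (X 0 + X 7) = Polynomial.C v :=
  ⟨Polynomial.X, Polynomial.X_ne_zero, psi_l k w hw⟩

theorem minMult36 (h2 : (2 : k) ≠ 0) : MinMult k (yy k) (yy k 0 + yy k 7) where
  reg := by
    intro r hr
    obtain ⟨c, p, rfl⟩ := exists_nf h2 r
    have h1 : (X 0 + X 7) * nf k c p ∈ I36 k := by
      rw [← Ideal.Quotient.eq_zero_iff_mem, map_mul, map_add]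
      exact hr
    obtain ⟨hc, hp⟩ := nf_zero k h1 (by
      rintro w (rfl | rfl)
      · exact psi_const wl (Or.inl ⟨rfl, rfl⟩)
      · exact psi_const wr (Or.inr ⟨rfl, rfl⟩))
    rw [mk_nf, hc, map_zero, zero_add]
    apply Finset.sum_eq_zero
    intro a _
    rw [hp a, map_zero, zero_mul]
  mul := by
    intro a b
    obtain ⟨t, c, h⟩ := yy_mul h2 a b
    exact ⟨_, Ideal.mul_mem_left _ _ (Ideal.subset_span ⟨c, rfl⟩), h⟩
  indep := by
    rintro c ⟨m, hm, hsum⟩ a
    obtain ⟨p, rfl⟩ := mem_span_iff_nf h2 hm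
    have h1 : Ideal.Quotient.mk (I36 k)
        (nf k 0 (fun a => Polynomial.C (c a) - Polynomial.X * p a)) = 0 := by
      rw [mk_nf, map_zero, zero_add]
      simp only [map_sub, sub_mul, Finset.sum_sub_distrib, map_mul, Polynomial.aeval_C,
        Polynomial.aeval_X]
      rw [hsum, mk_nf, map_zero, zero_add, Finset.mul_sum, sub_eq_zero]
      exact Finset.sum_congr rfl fun a _ => by ring
    have h3 : (1 : MvPolynomial (Fin 8) k) *
        nf k 0 (fun a => Polynomial.C (c a) - Polynomial.X * p a) ∈ I36 k := by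
      rw [one_mul, ← Ideal.Quotient.eq_zero_iff_mem]
      exact h1
    obtain ⟨-, hp⟩ := nf_zero k h3 (fun w _ => ⟨1, one_ne_zero, by rw [map_one, map_one]⟩)
    have h4 := congrArg (fun q => Polynomial.coeff q 0) (hp a)
    simpa using h4
  cover := by
    intro r
    obtain ⟨c, p, rfl⟩ := exists_nf h2 r
    refine ⟨c, ?_⟩
    have h3 : Ideal.Quotient.mk (I36 k) (nf k c p) -
        algebraMap k (MvPolynomial (Fin 8) k ⧸ I36 k) c =
        Ideal.Quotient.mk (I36 k) (nf k 0 p) := by
      rw [mk_nf, mk_nf, map_zero, zero_add, add_sub_cancel_left]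
    rw [h3]
    exact nf_sum_mem p
  proper := one_notMem

end Pool.Agent.H82.Golod
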