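import Mathlib

/-!
Free resolutions in `ModuleCat` and the dimension of Tor through a minimal resolution.
-/

set_option autoImplicit false

namespace Pool.Agent.H82.Golod

open CategoryTheory MonoidalCategory TensorProduct
open scoped ModuleCat.Algebra

universe u

variable {A : Type u} [CommRing A]

section res

variable (P : ℕ → ModuleCat.{u} A) (d : ∀ n, P (n + 1) ⟶ P n)
  (hd : ∀ n, Function.Exact (d (n + 1)).hom (d n).hom)

theorem sq_zero_of_exact (hd : ∀ n, Function.Exact (d (n + 1)).hom (d n).hom) (n : ℕ) :
    d (n + 1) ≫ d n = 0 := by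
  ext x
  exact (hd n).apply_apply_eq_zero x

/-- the chain complex -/
noncomputable def resComplex : ChainComplex (ModuleCat.{u} A) ℕ :=
  ChainComplex.of P d (sq_zero_of_exact P d hd)

variable (N : ModuleCat.{u} A) (p : P 0 ⟶ N) (hp : Function.Surjective p.hom)
  (h0 : Function.Exact (d 0).hom p.hom)

theorem resComplex_d (n : ℕ) : (resComplex P d hd).d (n + 1) n = d n :=
  ChainComplex.of_d _ _ n

/-- the augmentation -/
noncomputable def resPi (h0 : Function.Exact (d 0).hom p.hom) :
    resComplex P d hd ⟶ (ChainComplex.single₀ (ModuleCat.{u} A)).obj N :=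
  (ChainComplex.toSingle₀Equiv _ _).symm ⟨p, by
    have h1 : (resComplex P d hd).d 1 0 = d 0 := resComplex_d P d hd 0
    rw [h1]
    ext x
    exact h0.apply_apply_eq_zero x⟩

theorem resPi_f_zero : (resPi P d hd N p h0).f 0 = p :=
  ChainComplex.toSingle₀Equiv_symm_apply_f_zero _ _

include hp in
theorem resPi_quasiIso : QuasiIso (resPi P d hd N p h0) := by
  refine ⟨fun n => ?_⟩
  cases n with
  | zero =>
    rw [ChainComplex.quasiIsoAt₀_iff, ShortComplex.quasiIso_iff_of_zeros' _ rfl rfl rfl]
    constructor
    · rw [ShortComplex.ShortExact.moduleCat_exact_iff_function_exact]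
      have h2 : (resComplex P d hd).d 1 0 = d 0 := resComplex_d P d hd 0
      change Function.Exact ((resComplex P d hd).d 1 0).hom ((resPi P d hd N p h0).f 0).hom
      rw [h2, resPi_f_zero]
      exact h0
    · rw [ModuleCat.epi_iff_surjective]
      change Function.Surjective ((resPi P d hd N p h0).f 0).hom
      rw [resPi_f_zero]
      exact hp
  | succ m =>
    rw [quasiIsoAt_iff_exactAt' (hL := ChainComplex.exactAt_succ_single_obj ..),
        HomologicalComplex.exactAt_iff' _ (m + 2) (m + 1) m (by simp) (by simp)]
    rw [ShortComplex.ShortExact.moduleCat_exact_iff_function_exact]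
    have h6 : (resComplex P d hd).d (m + 2) (m + 1) = d (m + 1) := resComplex_d P d hd (m + 1)
    have h7 : (resComplex P d hd).d (m + 1) m = d m := resComplex_d P d hd m
    change Function.Exact ((resComplex P d hd).d (m + 2) (m + 1)).hom
      ((resComplex P d hd).d (m + 1) m).hom
    rw [h6, h7]
    exact hd m

/-- the projective resolution -/
noncomputable def resolution (hP : ∀ n, Projective (P n)) : ProjectiveResolution N where
  complex := resComplex P d hd
  projective n := hP n
  π := resPi P d hd N p h0
  quasiIso := resPi_quasiIso P d hd N p hp h0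

include hp hd h0 in
/-- Tor through a minimal resolution. -/
theorem tor_iso (hP : ∀ n, Projective (P n)) (X : ModuleCat.{u} A)
    (hmin : ∀ n, X ◁ (d n) = 0) (n : ℕ) :
    Nonempty (((Tor (ModuleCat.{u} A) n).obj X).obj N ≅ X ⊗ P n) := by
  have e1 := (resolution P d hd N p hp h0 hP).isoLeftDerivedObj
    ((tensoringLeft (ModuleCat.{u} A)).obj X) n
  set K : ChainComplex (ModuleCat.{u} A) ℕ :=
    (((tensoringLeft (ModuleCat.{u} A)).obj X).mapHomologicalComplex (ComplexShape.down ℕ)).obj
      (resComplex P d hd) with hK
  have hKd : ∀ i j, K.d i j = 0 := by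
    intro i j
    by_cases hij : i = j + 1
    · subst hij
      have h1 : K.d (j + 1) j = X ◁ ((resComplex P d hd).d (j + 1) j) := rfl
      rw [h1, resComplex_d]
      exact hmin j
    · exact K.shape i j (fun h => hij h.symm)
  have e2 : K.homology n ≅ X ⊗ P n :=
    (ShortComplex.HomologyData.ofZeros (K.sc n) (hKd _ _) (hKd _ _)).left.homologyIso
  exact ⟨e1 ≪≫ e2⟩

end res

section dim

variable {k : Type u} [Field k] [Algebra k A]

theorem finrank_eq_of_iso {M N : ModuleCat.{u} A} (e : M ≅ N) :
    Module.finrank k M = Module.finrank k N := by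
  have e1 : M ≃ₗ[A] N := e.toLinearEquiv
  have e2 : M ≃ₗ[k] N :=
    { e1 with
      map_smul' := by
        intro c x
        change e1 (algebraMap k A c • x) = algebraMap k A c • e1 x
        exact map_smul e1 _ _ }
  exact e2.finrank_eq

/-- dimension of a power of the residue field -/
theorem finrank_pow (m : Ideal A) (hcov : ∀ r : A, ∃ c : k, r - algebraMap k A c ∈ m)
    (hprop : (1 : A) ∉ m) (J : Type) [Fintype J] (M : ModuleCat.{u} A)
    (e0 : (J → A ⧸ m) ≃ₗ[A] M) :
    Module.finrank k M = Fintype.card J := by
  have hinj : ∀ c c' : k, Ideal.Quotient.mk m (algebraMap k A c) =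
      Ideal.Quotient.mk m (algebraMap k A c') → c = c' := by
    intro c c' h
    rw [Ideal.Quotient.eq, ← map_sub] at h
    by_contra hne
    apply hprop
    have h1 := m.mul_mem_left (algebraMap k A (c - c')⁻¹) h
    rwa [← map_mul, inv_mul_cancel₀ (sub_ne_zero.2 hne), map_one] at h1
  let e : (J → k) →ₗ[k] M :=
    { toFun := fun f => e0 (fun j => Ideal.Quotient.mk m (algebraMap k A (f j)) : J → A ⧸ m)
      map_add' := by
        intro f g
        rw [← map_add]
        congr 1
        funext j
        change Ideal.Quotient.mk m (algebraMap k A (f j + g j)) = _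
        rw [map_add, map_add]
        rfl
      map_smul' := by
        intro c f
        change _ = (algebraMap k A c) •
          e0 (fun j => Ideal.Quotient.mk m (algebraMap k A (f j)) : J → A ⧸ m)
        rw [← map_smul]
        congr 1
        funext j
        change Ideal.Quotient.mk m (algebraMap k A (c * f j)) = _
        rw [map_mul, map_mul, Pi.smul_apply, Algebra.smul_def]
        rfl }
  have he : Function.Bijective e := by
    constructor
    · intro f g h
      funext j
      exact hinj _ _ (congrFun (e0.injective h) j)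
    · intro f
      have h1 : ∀ j, ∃ c : k, Ideal.Quotient.mk m (algebraMap k A c) = (e0.symm f) j := by
        intro j
        obtain ⟨r, hr⟩ := Ideal.Quotient.mk_surjective ((e0.symm f) j)
        obtain ⟨c, hc⟩ := hcov r
        refine ⟨c, ?_⟩
        rw [← hr]
        exact ((Ideal.Quotient.eq).2 hc).symm
      choose c hc using h1
      refine ⟨c, ?_⟩
      change e0 (fun j => Ideal.Quotient.mk m (algebraMap k A (c j)) : J → A ⧸ m) = f
      rw [show (fun j => Ideal.Quotient.mk m (algebraMap k A (c j)) : J → A ⧸ m) = e0.symm f from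
        funext hc, LinearEquiv.apply_symm_apply]
  rw [← (LinearEquiv.ofBijective e he).finrank_eq, Module.finrank_fintype_fun_eq_card]

/-- The dimension of Tor from a minimal free resolution. -/
theorem finrank_tor (m : Ideal A) (hcov : ∀ r : A, ∃ c : k, r - algebraMap k A c ∈ m)
    (hprop : (1 : A) ∉ m) (J : ℕ → Type) [∀ n, Fintype (J n)]
    (d : ∀ n, (J (n + 1) → A) →ₗ[A] (J n → A))
    (hd : ∀ n, Function.Exact (d (n + 1)) (d n)) (p : (J 0 → A) →ₗ[A] A ⧸ m)
    (hp : Function.Surjective p) (h0 : Function.Exact (d 0) p)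
    (hmin : ∀ n f x, d n f x ∈ m) (n : ℕ) :
    Module.finrank k (((Tor (ModuleCat.{u} A) n).obj (ModuleCat.of A (A ⧸ m))).obj
      (ModuleCat.of A (A ⧸ m))) = Fintype.card (J n) := by
  classical
  obtain ⟨e1⟩ := tor_iso (fun n => ModuleCat.of A (J n → A)) (fun n => ModuleCat.ofHom (d n)) hd
    (ModuleCat.of A (A ⧸ m)) (ModuleCat.ofHom p) hp h0 (fun n => inferInstance)
    (ModuleCat.of A (A ⧸ m)) (by
      intro n
      apply ModuleCat.hom_ext
      change LinearMap.lTensor (A ⧸ m) (d n) = 0
      apply TensorProduct.ext'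
      intro x f
      rw [LinearMap.lTensor_tmul, LinearMap.zero_apply]
      have h1 : d n f = ∑ j, d n f j • Pi.single j (1 : A) := by
        rw [← pi_eq_sum_univ' (d n f)]
      rw [h1, TensorProduct.tmul_sum]
      apply Finset.sum_eq_zero
      intro j _
      rw [← TensorProduct.smul_tmul]
      have h2 : d n f j • x = 0 := by
        obtain ⟨r, rfl⟩ := Ideal.Quotient.mk_surjective x
        rw [← Ideal.Quotient.mk_eq_mk, ← Submodule.Quotient.mk_smul]
        apply (Submodule.Quotient.mk_eq_zero _).2
        exact m.mul_mem_right _ (hmin n f j)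
      rw [h2, TensorProduct.zero_tmul]) n
  rw [finrank_eq_of_iso (k := k) e1]
  exact finrank_pow m hcov hprop (J n) _
    (TensorProduct.piScalarRight A A (A ⧸ m) (J n)).symm

end dim

end Pool.Agent.H82.Golod
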