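import Pool.Agent.H82.Golod.KoszulDim

/-!
The ring of the generic Hankel matrix of size 3 x 6.
-/

set_option autoImplicit false

namespace Pool.Agent.H82.Golod

universe u

open MvPolynomial

section general

variable {k A : Type u} [Field k] [CommRing A] [Algebra k A] {e : ℕ}
variable {y : Fin (e + 1) → A} {l : A}

/-- replace the first generator by `l` -/
theorem MinMult.cons (h : MinMult k y l) (a : Fin (e + 1) → k) (ha0 : a 0 = 1)
    (ha : ∑ i, algebraMap k A (a i) * y i = l) :
    MinMult k (Fin.cons l (fun i : Fin e => y i.succ) : Fin (e + 1) → A) l ∧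
      Ideal.span (Set.range (Fin.cons l (fun i : Fin e => y i.succ) : Fin (e + 1) → A)) =
        Ideal.span (Set.range y) := by
  set g : Fin (e + 1) → A := Fin.cons l (fun i : Fin e => y i.succ) with hg
  have hg0 : g 0 = l := rfl
  have hgs : ∀ i : Fin e, g i.succ = y i.succ := fun i => rfl
  have hy : ∀ i, y i ∈ Ideal.span (Set.range y) := fun i =>
    Ideal.subset_span (Set.mem_range_self i)
  have hl : l ∈ Ideal.span (Set.range y) := by
    rw [← ha]
    exact Ideal.sum_mem _ fun i _ => Ideal.mul_mem_left _ _ (hy i)
  have hgi : ∀ i, g i ∈ Ideal.span (Set.range g) := fun i =>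
    Ideal.subset_span (Set.mem_range_self i)
  have hgmem : ∀ i, g i ∈ Ideal.span (Set.range y) := by
    intro i
    induction i using Fin.cases with
    | zero => exact hl
    | succ i => exact hy _
  have hspan : Ideal.span (Set.range g) = Ideal.span (Set.range y) := by
    apply le_antisymm
    · rw [Ideal.span_le]
      rintro _ ⟨i, rfl⟩
      exact hgmem i
    · rw [Ideal.span_le]
      rintro _ ⟨i, rfl⟩
      induction i using Fin.cases with
      | zero =>
        have h1 : y 0 = g 0 - ∑ i : Fin e, algebraMap k A (a i.succ) * g i.succ := by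
          rw [hg0, ← ha, Fin.sum_univ_succ, ha0, map_one, one_mul]
          simp only [hgs]
          ring
        rw [SetLike.mem_coe, h1]
        exact Ideal.sub_mem _ (hgi 0) (Ideal.sum_mem _ fun i _ =>
          Ideal.mul_mem_left _ _ (hgi _))
      | succ i => exact hgi i.succ
  refine ⟨⟨h.reg, ?_, ?_, ?_, ?_⟩, hspan⟩
  · intro p q
    rw [hspan]
    induction p using Fin.cases with
    | zero => exact ⟨g q, hgmem q, rfl⟩
    | succ p =>
      induction q using Fin.cases with
      | zero => exact ⟨g p.succ, hgmem _, mul_comm _ _⟩
      | succ q => exact h.mul p.succ q.succ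
  · intro c hc
    rw [hspan] at hc
    obtain ⟨m, hm, hsum⟩ := hc
    have h1 := h.indep (fun i => c 0 * a i + (if i = 0 then 0 else c i)) ⟨m, hm, by
      rw [← hsum, Fin.sum_univ_succ, Fin.sum_univ_succ, hg0]
      rw [show algebraMap k A (c 0) * l = algebraMap k A (c 0) * y 0 +
        ∑ i : Fin e, algebraMap k A (c 0) * algebraMap k A (a i.succ) * y i.succ from by
          rw [← ha, Fin.sum_univ_succ, ha0, map_one, one_mul, mul_add, Finset.mul_sum]
          congr 1
          exact Finset.sum_congr rfl fun i _ => by ring]
      rw [add_assoc, ← Finset.sum_add_distrib, if_pos rfl, ha0, mul_one, add_zero]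
      congr 1
      refine Finset.sum_congr rfl fun i _ => ?_
      rw [if_neg (Fin.succ_ne_zero i), map_add, map_mul, hgs]
      ring⟩
    have h2 := h1 0
    simp only [ha0, mul_one, if_true, add_zero] at h2
    intro i
    induction i using Fin.cases with
    | zero => exact h2
    | succ i =>
      have h3 := h1 i.succ
      simp only [h2, zero_mul, zero_add, Fin.succ_ne_zero, if_false] at h3
      exact h3
  · rw [hspan]
    exact h.cover
  · rw [hspan]
    exact h.proper

end general

end Pool.Agent.H82.Golod
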